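import Pool.Agent.Work.MP_3fbbd3_fit.Interface

/-! Block BDM: products, inverses, conjugates of bounded sets. -/

namespace Pool.Agent.Work.MP_3fbbd3_fit

open Subgroup
open Pool.Agent.Work.MP_3fbbd3_h11

universe u

namespace BDM

variable {G : Type u} [Group G]

theorem mono {C : Subgroup G} {A B : Set G} (h : Bd C B) (hA : A ⊆ B) : Bd C A := by
  obtain ⟨Y, hY, h⟩ := h
  exact ⟨Y, hY, fun b hb => h b (hA hb)⟩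

/-- representatives can be chosen in the set -/
theorem rep {C : Subgroup G} {B : Set G} (h : Bd C B) :
    ∃ Y : Set G, Y.Finite ∧ Y ⊆ B ∧ ∀ b ∈ B, ∃ y ∈ Y, y⁻¹ * b ∈ C := by
  classical
  obtain ⟨Y, hY, h⟩ := h
  have h1 : ∀ y : G, ∃ r : G, (∃ b ∈ B, y⁻¹ * b ∈ C) → (r ∈ B ∧ y⁻¹ * r ∈ C) := by
    intro y
    by_cases hy : ∃ b ∈ B, y⁻¹ * b ∈ C
    · obtain ⟨b, hb, hb2⟩ := hy
      exact ⟨b, fun _ => ⟨hb, hb2⟩⟩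
    · exact ⟨1, fun h => absurd h hy⟩
  choose r hr using h1
  refine ⟨r '' {y ∈ Y | ∃ b ∈ B, y⁻¹ * b ∈ C}, (hY.subset (Set.sep_subset _ _)).image r, ?_, ?_⟩
  · rintro _ ⟨y, ⟨-, hy⟩, rfl⟩
    exact (hr y hy).1
  · intro b hb
    obtain ⟨y, hy, hy2⟩ := h b hb
    have h2 : ∃ b ∈ B, y⁻¹ * b ∈ C := ⟨b, hb, hy2⟩
    refine ⟨r y, ⟨y, ⟨hy, h2⟩, rfl⟩, ?_⟩
    have h3 : (r y)⁻¹ * b = (y⁻¹ * r y)⁻¹ * (y⁻¹ * b) := by group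
    rw [h3]
    exact C.mul_mem (C.inv_mem (hr y h2).2) hy2

/-- images under `b ↦ g b r` -/
theorem two {C : Subgroup G} {N : Subgroup G}
    (hC : ∀ r : G, Bd C {x : G | ∃ m : G, m ∈ C ∧ m ∈ N ∧ x = m * r})
    {B : Set G} (hBN : B ⊆ N) (hB : Bd C B) (g r : G) :
    Bd C {x : G | ∃ b ∈ B, x = g * b * r} := by
  obtain ⟨Y, hY, hYB, hY2⟩ := rep hB
  obtain ⟨Z, hZ, hZ2⟩ := hC r
  refine ⟨Set.image2 (fun y z => g * y * z) Y Z, hY.image2 _ hZ, ?_⟩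
  rintro x ⟨b, hb, rfl⟩
  obtain ⟨y, hy, hyc⟩ := hY2 b hb
  obtain ⟨z, hz, hzc⟩ := hZ2 (y⁻¹ * b * r) ⟨y⁻¹ * b, hyc,
    N.mul_mem (N.inv_mem (hBN (hYB hy))) (hBN hb), rfl⟩
  refine ⟨g * y * z, ⟨y, hy, z, hz, rfl⟩, ?_⟩
  have h1 : (g * y * z)⁻¹ * (g * b * r) = z⁻¹ * (y⁻¹ * b * r) := by group
  rw [h1]
  exact hzc

end BDM

theorem blk_BDM (hCOM : Stmt_COM.{u}) : Stmt_BDM.{u} := by
  classical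
  intro G _ C hEC N hN B₁ B₂ h1N h2N hB₁ hB₂
  have hC := hCOM G C hEC N hN
  refine ⟨?_, ?_, ?_⟩
  · obtain ⟨Y₁, hY₁, hYB₁, hY₁'⟩ := BDM.rep hB₁
    obtain ⟨Y₂, hY₂, hYB₂, hY₂'⟩ := BDM.rep hB₂
    choose Z hZ hZ' using hC
    refine ⟨Set.image2 (fun y z => y * z) Y₁ (⋃ y ∈ Y₂, Z y), hY₁.image2 _ (hY₂.biUnion
      fun y _ => hZ y), ?_⟩
    rintro x ⟨b₁, hb₁, b₂, hb₂, rfl⟩
    obtain ⟨y₁, hy₁, hc₁⟩ := hY₁' b₁ hb₁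
    obtain ⟨y₂, hy₂, hc₂⟩ := hY₂' b₂ hb₂
    obtain ⟨z, hz, hzc⟩ := hZ' y₂ (y₁⁻¹ * b₁ * y₂) ⟨y₁⁻¹ * b₁, hc₁,
      N.mul_mem (N.inv_mem (h1N (hYB₁ hy₁))) (h1N hb₁), rfl⟩
    refine ⟨y₁ * z, ⟨y₁, hy₁, z, Set.mem_biUnion hy₂ hz, rfl⟩, ?_⟩
    have h1 : (y₁ * z)⁻¹ * (b₁ * b₂) = z⁻¹ * (y₁⁻¹ * b₁ * y₂) * (y₂⁻¹ * b₂) := by group
    rw [h1]
    exact C.mul_mem hzc hc₂
  · obtain ⟨Y₁, hY₁, hYB₁, hY₁'⟩ := BDM.rep hB₁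
    choose Z hZ hZ' using hC
    refine ⟨⋃ y ∈ Y₁, Z y⁻¹, hY₁.biUnion fun y _ => hZ _, ?_⟩
    rintro x ⟨b, hb, rfl⟩
    obtain ⟨y, hy, hc⟩ := hY₁' b hb
    obtain ⟨z, hz, hzc⟩ := hZ' y⁻¹ ((y⁻¹ * b)⁻¹ * y⁻¹) ⟨(y⁻¹ * b)⁻¹, C.inv_mem hc,
      N.inv_mem (N.mul_mem (N.inv_mem (h1N (hYB₁ hy))) (h1N hb)), rfl⟩
    refine ⟨z, Set.mem_biUnion hy hz, ?_⟩
    have h1 : z⁻¹ * b⁻¹ = z⁻¹ * ((y⁻¹ * b)⁻¹ * y⁻¹) := by group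
    rw [h1]
    exact hzc
  · intro g
    exact BDM.two hC h1N hB₁ g g⁻¹

end Pool.Agent.Work.MP_3fbbd3_fit
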