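import Pool.Agent.Work.MP_3fbbd3_fit.Interface

/-! Block COM: commensuration. -/

namespace Pool.Agent.Work.MP_3fbbd3_fit

open Subgroup Filter
open Pool.Agent.Work.MP_3fbbd3_h11
open scoped commutatorElement

universe u

theorem blk_COM (hSYN : Stmt_SYN.{u}) : Stmt_COM.{u} := by
  intro G _ C hEC N hN r
  let y : PP ↥(C ⊓ N) G := ⟨fun m => (m : G), Subgroup.subset_closure
    (Or.inl ⟨(C ⊓ N).subtype, ⟨N, hN, fun x => x.2.2⟩, fun _ => rfl⟩)⟩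
  have hy : y ∈ P1 ↥(C ⊓ N) G := MonoidHom.mem_ker.2 rfl
  have he : ⁅y, con ↥(C ⊓ N) G r⁻¹⁆ ∈ EP ↥(C ⊓ N) G :=
    subset_normalClosure ⟨y, hy, r⁻¹, rfl⟩
  have h1 := hEC ↥(C ⊓ N) _ he
  have h2 : ∀ᶠ m : ↥(C ⊓ N) in Lg ↥(C ⊓ N), r⁻¹ * (m : G) * r ∈ C := by
    filter_upwards [h1] with m hm
    have e : (⁅y, con ↥(C ⊓ N) G r⁻¹⁆ : PP ↥(C ⊓ N) G).1 m = (m : G) * r⁻¹ * (m : G)⁻¹ * r := by
      change (m : G) * r⁻¹ * (m : G)⁻¹ * r⁻¹⁻¹ = _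
      rw [inv_inv]
    rw [e] at hm
    have h3 : (m : G)⁻¹ * ((m : G) * r⁻¹ * (m : G)⁻¹ * r) ∈ C := C.mul_mem (C.inv_mem m.2.1) hm
    have e2 : r⁻¹ * (m : G) * r = ((m : G)⁻¹ * ((m : G) * r⁻¹ * (m : G)⁻¹ * r))⁻¹ := by group
    rw [e2]
    exact C.inv_mem h3
  obtain ⟨S, hS, hS'⟩ := hSYN ↥(C ⊓ N) {m | r⁻¹ * (m : G) * r ∈ C} h2
  refine ⟨(fun t : ↥(C ⊓ N) => (t : G)⁻¹ * r) '' S, hS.image _, ?_⟩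
  rintro b ⟨m, hmC, hmN, rfl⟩
  obtain ⟨t, ht, h⟩ := hS' ⟨m, hmC, hmN⟩
  refine ⟨_, ⟨t, ht, rfl⟩, ?_⟩
  have h4 : r⁻¹ * ((t : G) * m) * r ∈ C := h
  have e : ((t : G)⁻¹ * r)⁻¹ * (m * r) = r⁻¹ * ((t : G) * m) * r := by group
  rw [e]
  exact h4

end Pool.Agent.Work.MP_3fbbd3_fit
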