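import Pool.Agent.Work.MP_3fbbd3_fit.Interface

/-!
MP_3fbbd3_al, block EB (helper89): the functions in `EP` are bounded.
-/

namespace Pool.Agent.Work.MP_3fbbd3_fit

open Subgroup Filter
open Pool.Agent.Work.MP_3fbbd3_h11
open scoped commutatorElement

universe u

namespace EB

variable {G : Type u} [Group G]

theorem bd_mono {C : Subgroup G} {B B' : Set G} (h : B ⊆ B') (hB : Bd C B') : Bd C B := by
  obtain ⟨Y, hY, hYB⟩ := hB
  exact ⟨Y, hY, fun b hb => hYB b (h hb)⟩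

/-- the values of a function in `PP` are in a small normal subgroup -/
theorem values {T : Type u} [Group T] (f : PP T G) : ∃ N ∈ NN G, ∀ k, f.1 k ∈ N := by
  obtain ⟨f, hf⟩ := f
  change ∃ N ∈ NN G, ∀ k, f k ∈ N
  unfold PP at hf
  induction hf using Subgroup.closure_induction with
  | mem x hx =>
    rcases hx with ⟨φ, ⟨N, hN, hφ⟩, hx⟩ | ⟨c, hc⟩
    · exact ⟨N, hN, fun k => by rw [hx]; exact hφ k⟩
    · obtain ⟨N, hN, hcN⟩ := NN_cover c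
      exact ⟨N, hN, fun k => by rw [hc]; exact hcN⟩
  | one =>
    obtain ⟨N, hN, _⟩ := NN_cover (1 : G)
    exact ⟨N, hN, fun k => N.one_mem⟩
  | mul x y _ _ hx hy =>
    obtain ⟨N₁, h₁, hx⟩ := hx
    obtain ⟨N₂, h₂, hy⟩ := hy
    obtain ⟨N, hN, h1N, h2N⟩ := NN_directed N₁ h₁ N₂ h₂
    exact ⟨N, hN, fun k => N.mul_mem (h1N (hx k)) (h2N (hy k))⟩
  | inv x _ hx =>
    obtain ⟨N, hN, hx⟩ := hx
    exact ⟨N, hN, fun k => N.inv_mem (hx k)⟩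

end EB

theorem blk_EB (hRRR : Stmt_RRR.{u}) (hBDM : Stmt_BDM.{u}) : Stmt_EB.{u} := by
  intro G _ C hC T _ e he
  have hone : ∀ b y : PP T G, ∀ u : G, BB C (b * ⁅y, con T G u⁆ * b⁻¹).1 := by
    intro b y u
    obtain ⟨N₁, h₁, hb⟩ := EB.values b
    obtain ⟨N₂, h₂, hy⟩ := EB.values y
    obtain ⟨N, hN, h1N, h2N⟩ := NN_directed N₁ h₁ N₂ h₂
    have hNn : N.Normal := NN_normal N hN
    have hval : ∀ k, (b * ⁅y, con T G u⁆ * b⁻¹).1 k =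
        (b.1 k * (b.1 1)⁻¹ * (b.1 1 * y.1 k * (b.1 1)⁻¹)) *
        ((b.1 1 * u * (b.1 1)⁻¹) * (b.1 1 * y.1 k * (b.1 1)⁻¹)⁻¹ * (b.1 1 * u * (b.1 1)⁻¹)⁻¹ *
          (b.1 1 * y.1 k * (b.1 1)⁻¹)) *
        (b.1 k * (b.1 1)⁻¹ * (b.1 1 * y.1 k * (b.1 1)⁻¹))⁻¹ := by
      intro k
      have h0 : (b * ⁅y, con T G u⁆ * b⁻¹).1 k =
          b.1 k * (y.1 k * u * (y.1 k)⁻¹ * u⁻¹) * (b.1 k)⁻¹ := rfl
      rw [h0]
      group
    have hv1 : ∀ k, b.1 1 * y.1 k * (b.1 1)⁻¹ ∈ N := fun k =>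
      hNn.conj_mem _ (h2N (hy k)) _
    have hv2 : ∀ k, b.1 k * (b.1 1)⁻¹ * (b.1 1 * y.1 k * (b.1 1)⁻¹) ∈ N := fun k =>
      N.mul_mem (N.mul_mem (h1N (hb k)) (N.inv_mem (h1N (hb 1)))) (hv1 k)
    refine ⟨N, hN, ?_, ?_⟩
    · intro k
      rw [hval k]
      refine hNn.conj_mem _ ?_ _
      exact N.mul_mem (hNn.conj_mem _ (N.inv_mem (hv1 k)) _) (hv1 k)
    · refine EB.bd_mono ?_ (hRRR G C hC N hN (b.1 1 * u * (b.1 1)⁻¹))
      rintro x ⟨k, rfl⟩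
      exact ⟨_, hv1 k, _, hv2 k, hval k⟩
  have hmul : ∀ f g : T → G, BB C f → BB C g → BB C (f * g) := by
    rintro f g ⟨N₁, h₁, hf, hfB⟩ ⟨N₂, h₂, hg, hgB⟩
    obtain ⟨N, hN, h1N, h2N⟩ := NN_directed N₁ h₁ N₂ h₂
    refine ⟨N, hN, fun k => N.mul_mem (h1N (hf k)) (h2N (hg k)), ?_⟩
    have h := (hBDM G C hC N hN (Set.range f) (Set.range g)
      (by rintro x ⟨k, rfl⟩; exact h1N (hf k)) (by rintro x ⟨k, rfl⟩; exact h2N (hg k))
      hfB hgB).1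
    refine EB.bd_mono ?_ h
    rintro x ⟨k, rfl⟩
    exact ⟨f k, ⟨k, rfl⟩, g k, ⟨k, rfl⟩, rfl⟩
  have hinv : ∀ f : T → G, BB C f → BB C f⁻¹ := by
    rintro f ⟨N, hN, hf, hfB⟩
    refine ⟨N, hN, fun k => N.inv_mem (hf k), ?_⟩
    have h := (hBDM G C hC N hN (Set.range f) (Set.range f)
      (by rintro x ⟨k, rfl⟩; exact hf k) (by rintro x ⟨k, rfl⟩; exact hf k) hfB hfB).2.1
    refine EB.bd_mono ?_ h
    rintro x ⟨k, rfl⟩
    exact ⟨f k, ⟨k, rfl⟩, rfl⟩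
  unfold EP at he
  unfold Subgroup.normalClosure at he
  induction he using Subgroup.closure_induction with
  | mem x hx =>
    rw [Group.mem_conjugatesOfSet_iff] at hx
    obtain ⟨a, ⟨y, _, u, ha⟩, hx⟩ := hx
    rw [isConj_iff] at hx
    obtain ⟨b, hb⟩ := hx
    rw [← hb, ha]
    exact hone b y u
  | one =>
    obtain ⟨N, hN, _⟩ := NN_cover (1 : G)
    refine ⟨N, hN, fun k => N.one_mem, {1}, Set.finite_singleton _, ?_⟩
    rintro b ⟨k, rfl⟩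
    refine ⟨1, rfl, ?_⟩
    change (1 : G)⁻¹ * 1 ∈ C
    rw [inv_one, one_mul]
    exact C.one_mem
  | mul x y _ _ hx hy => exact hmul _ _ hx hy
  | inv x _ hx => exact hinv _ hx

end Pool.Agent.Work.MP_3fbbd3_fit
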