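import Pool.Agent.Work.MP_3fbbd3_fit.EEa

/-! Block EE: the main induction, second half. -/

namespace Pool.Agent.Work.MP_3fbbd3_fit

open Subgroup Filter
open Pool.Agent.Work.MP_3fbbd3_h11
open scoped commutatorElement

universe u

namespace EE

variable {G : Type u} [Group G] {P : Type u} [Group P]

theorem ev_conj {G : Type u} [Group G] (w : W) (Z : Subgroup G) {z : G} (hz : z ∈ Z) {y : G}
    (hy : y ∈ w.ev Z) : z * y * z⁻¹ ∈ w.ev Z := by
  have key : ∀ w : W, (w.ev Z).map (MulAut.conj z).toMonoidHom ≤ w.ev Z := by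
    intro w
    induction w with
    | x =>
      rintro _ ⟨y, hy, rfl⟩
      exact mul_mem (mul_mem hz hy) (inv_mem hz)
    | c w₁ w₂ h₁ h₂ =>
      change (⁅w₁.ev Z, w₂.ev Z⁆).map _ ≤ ⁅w₁.ev Z, w₂.ev Z⁆
      rw [map_commutator]
      exact commutator_mono h₁ h₂
  exact key w ⟨y, hy, rfl⟩

/-- the condition on the lists -/
def LL (Z : Subgroup G) (j : ℕ) : List G → ℕ → Prop
  | [], i => i = j
  | u :: l, i => u ∈ (dw i).ev Z ∧ LL Z j l (i + 1)

theorem LL_mono {Z Z' : Subgroup G} (h : Z ≤ Z') (j : ℕ) : ∀ (l : List G) (i : ℕ),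
    LL Z j l i → LL Z' j l i
  | [], _, hl => hl
  | _ :: l, i, hl => ⟨(dw i).ev_mono h hl.1, LL_mono h j l (i + 1) hl.2⟩

theorem fin_sup (hlf : ∀ s : Set G, s.Finite → ((Subgroup.closure s : Subgroup G) : Set G).Finite)
    {Z : Subgroup G} (hZ : (Z : Set G).Finite) {s : Set G} (hs : s.Finite) :
    ((Z ⊔ Subgroup.closure s : Subgroup G) : Set G).Finite := by
  have h1 : Z ⊔ Subgroup.closure s ≤ Subgroup.closure ((Z : Set G) ∪ s) := by
    rw [sup_le_iff]
    exact ⟨fun z hz => subset_closure (Or.inl hz), closure_mono Set.subset_union_right⟩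
  exact (hlf _ (hZ.union hs)).subset h1

section base

variable (cn : G →* P) (o : P →* G) {T : Type u} (ev : T → P →* G) (L : Filter T)

theorem base (hlf : ∀ s : Set G, s.Finite → ((Subgroup.closure s : Subgroup G) : Set G).Finite)
    (hev : ∀ k g, ev k (cn g) = g) (a : G)
    (hav : ∀ Z : Subgroup G, (Z : Set G).Finite → a ∉ Z → ∀ s : Set P, s.Finite →
      (∀ y ∈ s, o y = 1) → ∀ᶠ k in L, a ∉ Z ⊔ Subgroup.closure ((fun y : P => ev k y) '' s))
    {X Z : Subgroup G} (hZ : (Z : Set G).Finite) (hXZ : X ≤ Z) (haZ : a ∉ Z) (j : ℕ) :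
    ∀ (l : List G) (i : ℕ) (s : Set P) (y : P), s.Finite → (∀ b ∈ s, o b = 1) → LL Z j l i →
      (∀ k, ev k y ∈ (dw i).ev (Z ⊔ Subgroup.closure ((fun b : P => ev k b) '' s))) →
      RP cn o (fun y => ∀ᶠ k in L, ev k y ∈ CC a X j) l y := by
  intro l
  induction l with
  | nil =>
    intro i s y hs hs1 hl hy B hB
    obtain rfl : i = j := hl
    have hs' : (insert B s).Finite := hs.insert B
    have hs1' : ∀ b ∈ insert B s, o b = 1 := by
      intro b hb
      rcases Set.mem_insert_iff.1 hb with rfl | hb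
      · exact hB
      · exact hs1 b hb
    filter_upwards [hav Z hZ haZ _ hs' hs1'] with k hk
    set Z' : Subgroup G := Z ⊔ Subgroup.closure ((fun b : P => ev k b) '' insert B s) with hZ'
    have hB' : ev k B ∈ Z' :=
      (le_sup_right : Subgroup.closure ((fun b : P => ev k b) '' insert B s) ≤ Z')
        (subset_closure ⟨B, Set.mem_insert _ _, rfl⟩)
    have hy' : ev k y ∈ (dw i).ev Z' := by
      refine (dw i).ev_mono ?_ (hy k)
      exact sup_le_sup_left (Subgroup.closure_mono (Set.image_mono (Set.subset_insert _ _))) _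
    have h1 : ev k (B⁻¹ * y * B) ∈ (dw i).ev Z' := by
      have h2 := ev_conj (dw i) Z' (inv_mem hB') hy'
      rw [map_mul, map_mul, map_inv]
      rwa [inv_inv] at h2
    have h3 : (dw i).ev Z' ≤ CC a X i := by
      refine le_sSup ⟨Z', fin_sup hlf hZ (hs'.image _), hXZ.trans le_sup_left, hk, rfl⟩
    exact h3 h1
  | cons u l ih =>
    intro i s y hs hs1 hl hy B hB
    have hs' : (insert B s).Finite := hs.insert B
    have hs1' : ∀ b ∈ insert B s, o b = 1 := by
      intro b hb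
      rcases Set.mem_insert_iff.1 hb with rfl | hb
      · exact hB
      · exact hs1 b hb
    refine ih (i + 1) (insert B s) _ hs' hs1' hl.2 fun k => ?_
    set Z' : Subgroup G := Z ⊔ Subgroup.closure ((fun b : P => ev k b) '' insert B s) with hZ'
    have hB' : ev k B ∈ Z' :=
      (le_sup_right : Subgroup.closure ((fun b : P => ev k b) '' insert B s) ≤ Z')
        (subset_closure ⟨B, Set.mem_insert _ _, rfl⟩)
    have hy' : ev k y ∈ (dw i).ev Z' := by
      refine (dw i).ev_mono ?_ (hy k)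
      exact sup_le_sup_left (Subgroup.closure_mono (Set.image_mono (Set.subset_insert _ _))) _
    have h1 : ev k (B⁻¹ * y * B) ∈ (dw i).ev Z' := by
      have h2 := ev_conj (dw i) Z' (inv_mem hB') hy'
      rw [map_mul, map_mul, map_inv]
      rwa [inv_inv] at h2
    have hu : u ∈ (dw i).ev Z' := (dw i).ev_mono le_sup_left hl.1
    have h3 : ev k (KK cn u (B⁻¹ * y * B)) = ⁅(ev k (B⁻¹ * y * B))⁻¹, u⁆ := by
      generalize B⁻¹ * y * B = v
      unfold KK
      rw [map_mul, map_inv, map_mul, map_mul, map_inv, hev, commutatorElement_def]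
      group
    rw [h3]
    change _ ∈ ⁅(dw i).ev Z', (dw i).ev Z'⁆
    exact commutator_mem_commutator (inv_mem h1) hu

end base

section step

variable (cn : G →* P) (o : P →* G) {Ck : P → Prop}

/-- the subgroup of the `u` for which all `K_u(y)` satisfy the predicate -/
def SS (ho : ∀ g, o (cn g) = g) (h1 : Ck 1) (hm : ∀ y z, Ck y → Ck z → Ck (y * z))
    (hi : ∀ y, Ck y → Ck y⁻¹) (Q : Subgroup P) (hQ : Q.Normal) (hQo : ∀ y ∈ Q, o y = 1)
    (l : List G) : Subgroup G where
  carrier := {u | ∀ y ∈ Q, RP cn o Ck l (KK cn u y)}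
  one_mem' := by
    intro y _
    rw [KK_one']
    exact RP_one cn o h1 l
  mul_mem' := by
    intro u v hu hv y hy
    rw [KK_mul']
    have hy' : cn v * y * (cn v)⁻¹ ∈ Q := hQ.conj_mem y hy _
    exact RP_mul cn o ho hm l (o_KK cn o ho v (hQo y hy)) (o_KK cn o ho u (hQo _ hy'))
      (hv y hy) (hu _ hy')
  inv_mem' := by
    intro u hu y hy
    have hy' : cn u⁻¹ * y * (cn u⁻¹)⁻¹ ∈ Q := hQ.conj_mem y hy _
    have e : KK cn u⁻¹ y = (KK cn u (cn u⁻¹ * y * (cn u⁻¹)⁻¹))⁻¹ := by
      have h2 := KK_mul' cn u u⁻¹ y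
      rw [mul_inv_cancel, KK_one'] at h2
      exact eq_inv_of_mul_eq_one_left h2.symm
    rw [e]
    exact RP_inv cn o ho hi l (o_KK cn o ho u (hQo _ hy')) (hu _ hy')

theorem step_nc (ho : ∀ g, o (cn g) = g) (h1 : Ck 1) (hm : ∀ y z, Ck y → Ck z → Ck (y * z))
    (hi : ∀ y, Ck y → Ck y⁻¹) (Q : Subgroup P) (hQ : Q.Normal) (hQo : ∀ y ∈ Q, o y = 1)
    (l : List G) (h : ∀ u : G, ∀ y ∈ Q, RP cn o Ck l (KK cn u y)) :
    ∀ e ∈ normalClosure {e : P | ∃ y ∈ Q, ∃ u : G, e = ⁅y, cn u⁆}, o e = 1 ∧ RP cn o Ck l e := by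
  intro e he
  unfold normalClosure at he
  induction he using Subgroup.closure_induction with
  | mem x hx =>
    obtain ⟨e0, ⟨y, hy, u, rfl⟩, hc⟩ := Group.mem_conjugatesOfSet_iff.1 hx
    obtain ⟨b, rfl⟩ := isConj_iff.1 hc
    set c : G := o b with hcdef
    set b₁ : P := b * (cn c)⁻¹ with hb₁
    have hb1 : o b₁ = 1 := by
      rw [hb₁, map_mul, map_inv, ho, ← hcdef, mul_inv_cancel]
    have hb1' : o b₁⁻¹ = 1 := by rw [map_inv, hb1, inv_one]
    have hyi : y⁻¹ ∈ Q := inv_mem hy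
    have hy' : cn c * y⁻¹ * (cn c)⁻¹ ∈ Q := hQ.conj_mem _ hyi _
    have e1 : b * ⁅y, cn u⁆ * b⁻¹ =
        b₁⁻¹⁻¹ * KK cn (c * u * c⁻¹) (cn c * y⁻¹ * (cn c)⁻¹) * b₁⁻¹ := by
      rw [KK_comm, ← KK_conj, hb₁]
      group
    rw [e1]
    refine ⟨?_, RP_conj cn o Ck l hb1' (h _ _ hy')⟩
    exact o_conj o hb1' (o_KK cn o ho _ (hQo _ hy'))
  | one => exact ⟨map_one o, RP_one cn o h1 l⟩
  | mul x y _ _ hx hy =>
    exact ⟨by rw [map_mul, hx.1, hy.1, mul_one], RP_mul cn o ho hm l hx.1 hy.1 hx.2 hy.2⟩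
  | inv x _ hx =>
    exact ⟨by rw [map_inv, hx.1, inv_one], RP_inv cn o ho hi l hx.1 hx.2⟩

end step

section QQ

variable (cn : G →* P) (o : P →* G)

theorem comm_le (A : Subgroup P) (hA : A.Normal) :
    ⁅A, normalClosure (Set.range cn)⁆ ≤
      normalClosure {e : P | ∃ y ∈ A, ∃ u : G, e = ⁅y, cn u⁆} := by
  set N : Subgroup P := normalClosure {e : P | ∃ y ∈ A, ∃ u : G, e = ⁅y, cn u⁆} with hN
  have hNn : N.Normal := normalClosure_normal
  let S : Subgroup P :=
    { carrier := {g | ∀ y ∈ A, ⁅y, g⁆ ∈ N}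
      one_mem' := by
        intro y _
        rw [commutatorElement_one_right]
        exact one_mem _
      mul_mem' := by
        intro g h hg hh y hy
        have h1 : ⁅y, g * h⁆ = ⁅y, g⁆ * (g * ⁅y, h⁆ * g⁻¹) := by
          simp only [commutatorElement_def]; group
        rw [h1]
        exact mul_mem (hg y hy) (hNn.conj_mem _ (hh y hy) g)
      inv_mem' := by
        intro g hg y hy
        have h1 : ⁅y, g⁻¹⁆ = g⁻¹ * ⁅y, g⁆⁻¹ * g⁻¹⁻¹ := by
          simp only [commutatorElement_def]; group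
        rw [h1]
        exact hNn.conj_mem _ (inv_mem (hg y hy)) _ }
  have hS : S.Normal := by
    refine ⟨fun g hg b y hy => ?_⟩
    have h1 : ⁅y, b * g * b⁻¹⁆ = b * ⁅b⁻¹ * y * b, g⁆ * b⁻¹ := by
      simp only [commutatorElement_def]; group
    rw [h1]
    refine hNn.conj_mem _ (hg _ ?_) b
    have h2 := hA.conj_mem y hy b⁻¹
    rwa [inv_inv] at h2
  have hle : normalClosure (Set.range cn) ≤ S := by
    refine normalClosure_le_normal ?_
    rintro _ ⟨u, rfl⟩ y hy
    exact subset_normalClosure ⟨y, hy, u, rfl⟩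
  rw [commutator_le]
  intro y hy g hg
  exact hle hg y hy

theorem le_comm (A : Subgroup P) (hA : A.Normal) :
    normalClosure {e : P | ∃ y ∈ A, ∃ u : G, e = ⁅y, cn u⁆} ≤
      ⁅A, normalClosure (Set.range cn)⁆ := by
  have : (normalClosure (Set.range cn)).Normal := normalClosure_normal
  refine normalClosure_le_normal ?_
  rintro _ ⟨y, hy, u, rfl⟩
  exact commutator_mem_commutator hy (subset_normalClosure ⟨u, rfl⟩)

theorem perf (hp : commutator G = ⊤) :
    normalClosure (Set.range cn) ≤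
      ⁅normalClosure (Set.range cn), normalClosure (Set.range cn)⁆ := by
  have : (normalClosure (Set.range cn)).Normal := normalClosure_normal
  refine normalClosure_le_normal ?_
  have h1 : ((cn.range : Subgroup P) : Set P) ⊆
      (⁅normalClosure (Set.range cn), normalClosure (Set.range cn)⁆ : Subgroup P) := by
    have h2 : cn.range = ⁅cn.range, cn.range⁆ := by
      rw [MonoidHom.range_eq_map, ← map_commutator, ← commutator_def, hp]
    rw [h2]
    have h3 : cn.range ≤ normalClosure (Set.range cn) := by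
      rintro _ ⟨u, rfl⟩
      exact subset_normalClosure ⟨u, rfl⟩
    exact commutator_mono h3 h3
  rwa [MonoidHom.coe_range] at h1

theorem QQ_one_two (hp : commutator G = ⊤) : QQ cn o 1 ≤ QQ cn o 2 := by
  have hn0 := QQ_normal cn o 0
  have hn1 := QQ_normal cn o 1
  have hn2 := QQ_normal cn o 2
  have h1 : QQ cn o 1 ≤ ⁅QQ cn o 0, normalClosure (Set.range cn)⁆ := le_comm cn _ hn0
  have h1' : ⁅QQ cn o 0, normalClosure (Set.range cn)⁆ ≤ QQ cn o 1 := comm_le cn _ hn0
  have h2' : ⁅QQ cn o 1, normalClosure (Set.range cn)⁆ ≤ QQ cn o 2 := comm_le cn _ hn1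
  have h3 : ⁅⁅QQ cn o 0, normalClosure (Set.range cn)⁆, normalClosure (Set.range cn)⁆ ≤
      QQ cn o 2 := (commutator_mono h1' le_rfl).trans h2'
  refine h1.trans ?_
  rw [commutator_comm]
  refine (commutator_mono (perf cn hp) le_rfl).trans ?_
  refine POLY.three _ _ _ _ ?_ h3
  rw [commutator_comm (normalClosure (Set.range cn)) (QQ cn o 0)]
  exact h3

theorem QQ_one_le (hp : commutator G = ⊤) : ∀ i, QQ cn o 1 ≤ QQ cn o i
  | 0 => QQ_ker cn o 1
  | 1 => le_rfl
  | i + 2 => by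
    refine (QQ_one_two cn o hp).trans ?_
    have h1 := QQ_one_le hp (i + 1)
    change normalClosure _ ≤ normalClosure _
    refine normalClosure_mono ?_
    rintro _ ⟨y, hy, u, rfl⟩
    exact ⟨y, h1 hy, u, rfl⟩

end QQ

end EE

theorem blk_EE : Stmt_EE.{u} := by
  intro G _ hp hlf P _ cn o T ev L ho hev a hav X hX haX j hCC e he
  set Ck : P → Prop := fun y => ∀ᶠ k in L, ev k y ∈ CC a X j with hCk
  have h1 : Ck 1 := by
    refine Eventually.of_forall fun k => ?_
    rw [map_one]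
    exact one_mem _
  have hm : ∀ y z, Ck y → Ck z → Ck (y * z) := by
    intro y z hy hz
    filter_upwards [hy, hz] with k h1 h2
    rw [map_mul]
    exact mul_mem h1 h2
  have hi : ∀ y, Ck y → Ck y⁻¹ := by
    intro y hy
    filter_upwards [hy] with k h1
    rw [map_inv]
    exact inv_mem h1
  have claim : ∀ i, i ≤ j → ∀ Z : Subgroup G, (Z : Set G).Finite → X ≤ Z → a ∉ Z →
      ∀ l : List G, EE.LL Z j l i → ∀ y ∈ EE.QQ cn o i, EE.RP cn o Ck l y := by
    intro i
    induction i with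
    | zero =>
      intro _ Z hZ hXZ haZ l hl y hy
      refine EE.base cn o ev L hlf hev a hav hZ hXZ haZ j l 0 {y} y (Set.finite_singleton y)
        ?_ hl ?_
      · intro b hb
        rw [Set.mem_singleton_iff] at hb
        rw [hb]
        exact hy
      · intro k
        change ev k y ∈ Z ⊔ Subgroup.closure ((fun b : P => ev k b) '' {y})
        exact (le_sup_right : Subgroup.closure ((fun b : P => ev k b) '' {y}) ≤ _)
          (subset_closure ⟨y, rfl, rfl⟩)
    | succ i ih =>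
      intro hij Z hZ hXZ haZ l hl
      have hQo : ∀ y ∈ EE.QQ cn o i, o y = 1 := fun y hy => EE.QQ_ker cn o i hy
      have hQn := EE.QQ_normal cn o i
      have hS : EE.SS cn o ho h1 hm hi (EE.QQ cn o i) hQn hQo l = ⊤ := by
        rw [← top_le_iff, ← hCC i (by omega) Z hZ hXZ haZ]
        refine sSup_le ?_
        rintro _ ⟨Z', hZ', hZZ', haZ', rfl⟩ u hu y hy
        have h2 := ih (by omega) Z' hZ' (hXZ.trans hZZ') haZ' (u :: l)
          ⟨hu, EE.LL_mono hZZ' j l (i + 1) hl⟩ y hy 1 (map_one o)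
        have e : (1 : P)⁻¹ * y * 1 = y := by group
        rwa [e] at h2
      intro y hy
      refine (EE.step_nc cn o ho h1 hm hi (EE.QQ cn o i) hQn hQo l (fun u y hy => ?_) y hy).2
      have hu : u ∈ EE.SS cn o ho h1 hm hi (EE.QQ cn o i) hQn hQo l := by
        rw [hS]
        exact mem_top u
      exact hu y hy
  have he1 : e ∈ EE.QQ cn o 1 := by
    refine normalClosure_mono ?_ he
    rintro _ ⟨y, hy, u, rfl⟩
    exact ⟨y, hy, u, rfl⟩
  have he2 := EE.QQ_one_le cn o hp j he1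
  have h3 := claim j le_rfl X hX le_rfl haX [] rfl e he2 1 (map_one o)
  have e' : (1 : P)⁻¹ * e * 1 = e := by group
  rw [e'] at h3
  exact h3

end Pool.Agent.Work.MP_3fbbd3_fit
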