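import Pool.Agent.Work.MP_3fbbd3_fit.Interface
import Pool.Agent.Work.MP_3fbbd3_h11.AVOID

/-!
# Block GP (from EXPN, FFG, POLY)
-/

set_option autoImplicit false

namespace Pool.Agent.Work.MP_3fbbd3_fit

open Subgroup Filter
open Pool.Agent.Work.MP_3fbbd3_h11
open scoped commutatorElement

universe u

namespace GP

/-- the functions generated by the constants in `N` and the homomorphisms into `N` -/
def Q (T : Type u) [Group T] {G : Type u} [Group G] (N : Subgroup G) : Subgroup (T → G) :=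
  Subgroup.closure ({f : T → G | ∃ φ : T →* G, (∀ x, φ x ∈ N) ∧ ∀ x, f x = φ x} ∪
    {f : T → G | ∃ c ∈ N, ∀ x, f x = c})

/-- the group of all polynomial functions -/
def Pol (T : Type u) [Group T] (Γ : Type u) [Group Γ] : Subgroup (T → Γ) :=
  Subgroup.closure ({f : T → Γ | ∃ φ : T →* Γ, ∀ x, f x = φ x} ∪
      {f : T → Γ | ∃ c : Γ, ∀ x, f x = c})

variable {T : Type u} [Group T] {G : Type u} [Group G]

theorem Q_mono {N N' : Subgroup G} (h : N ≤ N') : Q T N ≤ Q T N' := by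
  refine Subgroup.closure_mono (Set.union_subset_union ?_ ?_)
  · rintro f ⟨φ, hφ, hf⟩
    exact ⟨φ, fun x => h (hφ x), hf⟩
  · rintro f ⟨c, hc, hf⟩
    exact ⟨c, h hc, hf⟩

/-- every function in `PP` is in some `Q T N` -/
theorem exists_Q (f : T → G) (hf : f ∈ PP T G) : ∃ N ∈ NN G, f ∈ Q T N := by
  have hP : PP T G = Subgroup.closure
    ({f : T → G | ∃ φ : T →* G, (∃ N ∈ NN G, ∀ x, φ x ∈ N) ∧ ∀ x, f x = φ x} ∪
    {f : T → G | ∃ c : G, ∀ x, f x = c}) := rfl
  rw [hP] at hf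
  induction hf using Subgroup.closure_induction with
  | mem f hf =>
    rcases hf with ⟨φ, ⟨N, hN, hφ⟩, hf⟩ | ⟨c, hf⟩
    · exact ⟨N, hN, Subgroup.subset_closure (Or.inl ⟨φ, hφ, hf⟩)⟩
    · obtain ⟨N, hN, hc⟩ := NN_cover c
      exact ⟨N, hN, Subgroup.subset_closure (Or.inr ⟨c, hc, hf⟩)⟩
  | one =>
    obtain ⟨N, hN, -⟩ := NN_cover (1 : G)
    exact ⟨N, hN, one_mem _⟩
  | mul f g _ _ ihf ihg =>
    obtain ⟨N₁, hN₁, h₁⟩ := ihf
    obtain ⟨N₂, hN₂, h₂⟩ := ihg
    obtain ⟨N, hN, l₁, l₂⟩ := NN_directed N₁ hN₁ N₂ hN₂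
    exact ⟨N, hN, mul_mem (Q_mono l₁ h₁) (Q_mono l₂ h₂)⟩
  | inv f _ ih =>
    obtain ⟨N, hN, h⟩ := ih
    exact ⟨N, hN, inv_mem h⟩

/-- a small normal subgroup for a finite set of functions and a finite set of elements -/
theorem exists_N (s : Set (PP T G)) (hs : s.Finite) (A : Set G) (hA : A.Finite) :
    ∃ F : Set G, F.Finite ∧ A ⊆ normalClosure F ∧ ∀ y ∈ s, y.1 ∈ Q T (normalClosure F) := by
  have h1 : ∃ N ∈ NN G, ∀ y ∈ s, y.1 ∈ Q T N := by
    induction s, hs using Set.Finite.induction_on with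
    | empty =>
      obtain ⟨N, hN, -⟩ := NN_cover (1 : G)
      exact ⟨N, hN, fun y hy => absurd hy (Set.notMem_empty y)⟩
    | @insert y s _ _ ih =>
      obtain ⟨N₁, hN₁, h₁⟩ := ih
      obtain ⟨N₂, hN₂, h₂⟩ := exists_Q y.1 y.2
      obtain ⟨N, hN, l₁, l₂⟩ := NN_directed N₁ hN₁ N₂ hN₂
      refine ⟨N, hN, fun z hz => ?_⟩
      rcases hz with rfl | hz
      · exact Q_mono l₂ h₂
      · exact Q_mono l₁ (h₁ z hz)
  obtain ⟨N, ⟨-, F, hF, hNF⟩, hN⟩ := h1
  refine ⟨F ∪ A, hF.union hA, ?_, fun y hy => ?_⟩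
  · exact Set.subset_union_right.trans subset_normalClosure
  · exact Q_mono (hNF.trans (normalClosure_mono Set.subset_union_left)) (hN y hy)

/-- the functions in `Q T N` have values in `N` and are polynomial modulo every normal subgroup -/
theorem Q_pol {N : Subgroup G} {Γ : Type u} [Group Γ] (π : N →* Γ) (f : T → G) (hf : f ∈ Q T N) :
    ∃ h : ∀ x, f x ∈ N, (fun x => π ⟨f x, h x⟩) ∈ Pol T Γ := by
  have hP : Q T N = Subgroup.closure
    ({f : T → G | ∃ φ : T →* G, (∀ x, φ x ∈ N) ∧ ∀ x, f x = φ x} ∪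
    {f : T → G | ∃ c ∈ N, ∀ x, f x = c}) := rfl
  rw [hP] at hf
  induction hf using Subgroup.closure_induction with
  | mem f hf =>
    rcases hf with ⟨φ, hφ, hf⟩ | ⟨c, hc, hf⟩
    · have h : ∀ x, f x ∈ N := fun x => by rw [hf x]; exact hφ x
      refine ⟨h, Subgroup.subset_closure (Or.inl ⟨π.comp (φ.codRestrict N hφ), fun x => ?_⟩)⟩
      have e : (⟨f x, h x⟩ : N) = φ.codRestrict N hφ x := Subtype.ext (hf x)
      exact congrArg π e
    · have h : ∀ x, f x ∈ N := fun x => by rw [hf x]; exact hc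
      refine ⟨h, Subgroup.subset_closure (Or.inr ⟨π ⟨c, hc⟩, fun x => ?_⟩)⟩
      have e : (⟨f x, h x⟩ : N) = ⟨c, hc⟩ := Subtype.ext (hf x)
      exact congrArg π e
  | one =>
    refine ⟨fun x => one_mem _, ?_⟩
    have e : (fun x : T => π ⟨(1 : T → G) x, one_mem N⟩) = 1 := by
      funext x
      exact map_one π
    rw [e]
    exact one_mem _
  | mul f g _ _ ihf ihg =>
    obtain ⟨h₁, h₁'⟩ := ihf
    obtain ⟨h₂, h₂'⟩ := ihg
    refine ⟨fun x => mul_mem (h₁ x) (h₂ x), ?_⟩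
    have e : (fun x : T => π ⟨(f * g) x, mul_mem (h₁ x) (h₂ x)⟩) =
        (fun x => π ⟨f x, h₁ x⟩) * (fun x => π ⟨g x, h₂ x⟩) := by
      funext x
      exact map_mul π ⟨f x, h₁ x⟩ ⟨g x, h₂ x⟩
    rw [e]
    exact mul_mem h₁' h₂'
  | inv f _ ih =>
    obtain ⟨h, h'⟩ := ih
    refine ⟨fun x => inv_mem (h x), ?_⟩
    have e : (fun x : T => π ⟨(f⁻¹) x, inv_mem (h x)⟩) = (fun x => π ⟨f x, h x⟩)⁻¹ := by
      funext x
      exact map_inv π ⟨f x, h x⟩
    rw [e]
    exact inv_mem h'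

/-- one step of the lower central series misses finitely many nontrivial elements -/
theorem exists_i {N : Subgroup G}
    (hN : ∀ x : G, (∀ i : ℕ, x ∈ N.lowerCentralSeries i) → x = 1) (A : Set G) (hA : A.Finite) :
    ∃ i : ℕ, ∀ x ∈ A, x ≠ 1 → x ∉ N.lowerCentralSeries i := by
  induction A, hA using Set.Finite.induction_on with
  | empty => exact ⟨0, fun x hx => absurd hx (Set.notMem_empty x)⟩
  | @insert y A _ _ ih =>
    obtain ⟨i, hi⟩ := ih
    by_cases hy : y = 1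
    · refine ⟨i, fun x hx hx1 => ?_⟩
      rcases hx with rfl | hx
      · exact absurd hy hx1
      · exact hi x hx hx1
    · have h1 : ∃ j, y ∉ N.lowerCentralSeries j := by
        by_contra hcon
        push Not at hcon
        exact hy (hN y hcon)
      obtain ⟨j, hj⟩ := h1
      refine ⟨max i j, fun x hx hx1 => ?_⟩
      rcases hx with rfl | hx
      · exact fun h => hj (N.lowerCentralSeries_antitone (le_max_right i j) h)
      · exact fun h => hi x hx hx1 (N.lowerCentralSeries_antitone (le_max_left i j) h)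

/-- a nilpotent quotient of a normal closure has finite exponent -/
theorem expo' (hEXPN : Stmt_EXPN.{u}) {p : ℕ} (hp : p ≠ 0)
    (hpG : IsPGroup p G) {F : Set G} (hF : F.Finite) {Γ : Type u} [Group Γ]
    [Group.IsNilpotent Γ] (π : normalClosure F →* Γ) (hπ : Function.Surjective π) :
    ∃ k : ℕ, k ≠ 0 ∧ ∀ g : Γ, g ^ k = 1 := by
  obtain ⟨e, he, h⟩ := AVOID.bound hp hpG hF
  refine hEXPN Γ (π '' (((↑) : normalClosure F → G) ⁻¹' (Group.conjugatesOfSet F))) e he ?_ ?_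
  · rintro _ ⟨s, hs, rfl⟩
    rw [Set.mem_preimage, Group.mem_conjugatesOfSet_iff] at hs
    obtain ⟨f, hf, hc⟩ := hs
    obtain ⟨c, hc⟩ := isConj_iff.mp hc
    have h1 : s ^ e = 1 := by
      apply Subtype.ext
      rw [SubmonoidClass.coe_pow, ← hc, conj_pow, h f hf, mul_one, mul_inv_cancel]
      rfl
    rw [← map_pow, h1, map_one]
  · have h1 : Subgroup.closure (((↑) : normalClosure F → G) ⁻¹' (Group.conjugatesOfSet F)) = ⊤ :=
      Subgroup.closure_closure_coe_preimage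
    rw [← MonoidHom.map_closure, h1, Subgroup.map_top_of_surjective π hπ]

end GP

open GP in
theorem blk_GP (hEXPN : Stmt_EXPN.{u}) (hFFG : Stmt_FFG.{u}) (hPOLY : Stmt_POLY.{u}) :
    Stmt_GP.{u} := by
  intro p G _ hp hpG _ hres a T _ Z hZ haZ s hs hs1
  rw [Lg, Filter.eventually_iSup]
  rintro ⟨U, hU⟩
  change ∀ᶠ k in (U : Filter T), _
  rw [Ultrafilter.eventually_not]
  intro hev2
  obtain ⟨F, hF, hAF, hsF⟩ := exists_N s hs ((Z : Set G) ∪ {a}) (hZ.union (Set.finite_singleton a))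
  set N : Subgroup G := normalClosure F with hN
  have hZN : Z ≤ N := fun z hz => hAF (Or.inl hz)
  have haN : a ∈ N := hAF (Or.inr rfl)
  obtain ⟨i, hi⟩ := exists_i (hres F hF) ((fun z => z⁻¹ * a) '' (Z : Set G)) (hZ.image _)
  -- the nilpotent quotient
  let R : Subgroup N := (⊤ : Subgroup N).lowerCentralSeries i
  let Γ : Type u := N ⧸ R
  let π : N →* Γ := QuotientGroup.mk' R
  have hπs : Function.Surjective π := QuotientGroup.mk'_surjective R
  have hΓnil : Group.IsNilpotent Γ := by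
    rw [Subgroup.nilpotent_iff_lowerCentralSeries]
    refine ⟨i, ?_⟩
    have h1 := map_lowerCentralSeries (⊤ : Subgroup N) π i
    rw [Subgroup.map_top_of_surjective π hπs] at h1
    rw [← h1]
    exact QuotientGroup.map_mk'_self R
  obtain ⟨k, hk, hexp⟩ := expo' hEXPN hp hpG hF π hπs
  have hval : ∀ y ∈ s, ∀ x, y.1 x ∈ N := fun y hy => (Q_pol π y.1 (hsF y hy)).1
  -- the finite group of polynomial maps
  let Cs : Set (T → Γ) := {f | ∃ l : Z, ∀ x, f x = π ⟨l, hZN l.2⟩} ∪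
    {f | ∃ y : s, ∀ x, f x = π ⟨y.1.1 x, hval y.1 y.2 x⟩}
  let P : Subgroup (T → Γ) := Subgroup.closure Cs
  have hCs : Cs.Finite := by
    apply Set.Finite.union
    · have : Finite Z := hZ
      apply (Set.finite_range (fun l : Z => (fun _ => π ⟨l, hZN l.2⟩ : T → Γ))).subset
      rintro f ⟨l, hl⟩
      exact ⟨l, funext fun x => (hl x).symm⟩
    · have : Finite s := hs
      apply (Set.finite_range (fun y : s => (fun x => π ⟨y.1.1 x, hval y.1 y.2 x⟩ : T → Γ))).subset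
      rintro f ⟨y, hy⟩
      exact ⟨y, funext fun x => (hy x).symm⟩
  have hPfg : Group.FG P := by
    have : Finite Cs := hCs
    exact Group.closure_finite_fg Cs
  have hPn : Group.IsNilpotent (T → Γ) :=
    Group.isNilpotent_pi_of_bounded_class (Group.nilpotencyClass Γ) (fun _ => le_rfl)
  have hPnil : Group.IsNilpotent P := inferInstance
  have hPexp : ∀ g : P, g ^ k = 1 := by
    intro g
    apply Subtype.ext
    funext x
    exact hexp (g.1 x)
  have hPfin : Finite P := hFFG P k hk hPexp hPfg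
  -- evaluation
  have hev : ∀ x : T, Z ⊔ Subgroup.closure ((fun y : PP T G => y.1 x) '' s) ≤
      ((P.map (Pi.evalMonoidHom (fun _ : T => Γ) x)).comap π).map N.subtype := by
    intro x
    apply sup_le
    · intro l hl
      refine ⟨⟨l, hZN hl⟩, ⟨fun _ => π ⟨l, hZN hl⟩, ?_, rfl⟩, rfl⟩
      exact Subgroup.subset_closure (Or.inl ⟨⟨l, hl⟩, fun _ => rfl⟩)
    · rw [Subgroup.closure_le]
      rintro _ ⟨y, hy, rfl⟩
      refine ⟨⟨y.1 x, hval y hy x⟩, ⟨fun x => π ⟨y.1 x, hval y hy x⟩, ?_, rfl⟩, rfl⟩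
      exact Subgroup.subset_closure (Or.inr ⟨⟨y, hy⟩, fun _ => rfl⟩)
  have hev1 : P ≤ ((Z.subgroupOf N).map π).comap (Pi.evalMonoidHom (fun _ : T => Γ) 1) := by
    rw [Subgroup.closure_le]
    rintro f (⟨l, hl⟩ | ⟨y, hy⟩)
    · change f 1 ∈ (Z.subgroupOf N).map π
      rw [hl 1]
      exact ⟨⟨l, hZN l.2⟩, l.2, rfl⟩
    · change f 1 ∈ (Z.subgroupOf N).map π
      rw [hy 1]
      have h1 : y.1.1 1 = 1 := MonoidHom.mem_ker.1 (hs1 y.1 y.2)
      have e : (⟨y.1.1 1, hval y.1 y.2 1⟩ : N) = 1 := Subtype.ext h1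
      rw [e, map_one]
      exact one_mem _
  have h1 : ∀ᶠ x in (U : Filter T), ∃ f : P, f.1 x = π ⟨a, haN⟩ := by
    filter_upwards [hev2] with x hx
    obtain ⟨c, ⟨f, hf, hfc⟩, hca⟩ := hev x hx
    refine ⟨⟨f, hf⟩, ?_⟩
    have e : (⟨a, haN⟩ : N) = c := Subtype.ext hca.symm
    rw [e]
    exact hfc
  rw [Ultrafilter.eventually_exists_iff] at h1
  obtain ⟨f, hf⟩ := h1
  have h2 : f.1 ∈ Pol T Γ := by
    have h3 : P ≤ Pol T Γ := by
      rw [Subgroup.closure_le]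
      rintro g (⟨l, hl⟩ | ⟨y, hy⟩)
      · exact Subgroup.subset_closure (Or.inr ⟨_, hl⟩)
      · obtain ⟨h, h'⟩ := Q_pol π y.1.1 (hsF y.1 y.2)
        have e : g = fun x => π ⟨y.1.1 x, h x⟩ := funext hy
        rw [e]
        exact h'
    exact h3 f.2
  have h3 := hPOLY T Γ U hU f.1 h2 (π ⟨a, haN⟩) hf
  have h4 := hev1 f.2
  rw [Subgroup.mem_comap] at h4
  change f.1 1 ∈ _ at h4
  rw [h3] at h4
  obtain ⟨z, hz, hza⟩ := h4
  have h5 : z⁻¹ * ⟨a, haN⟩ ∈ R := by
    rw [← QuotientGroup.eq]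
    exact hza
  have h6 : (z : G)⁻¹ * a ∈ N.lowerCentralSeries i := by
    rw [← top_subtype_lowerCentralSeries]
    exact ⟨_, h5, rfl⟩
  refine hi _ ⟨z, hz, rfl⟩ ?_ h6
  intro h7
  apply haZ
  rw [inv_mul_eq_one] at h7
  rw [← h7]
  exact hz

end Pool.Agent.Work.MP_3fbbd3_fit
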