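import Pool.Agent.Work.MP_3fbbd3_fit.Interface
import Pool.Agent.Work.MP_3fbbd3_h11.RED

/-! Block LEN: bounded nilpotent length. -/

namespace Pool.Agent.Work.MP_3fbbd3_fit

open Subgroup Filter
open Pool.Agent.Work.MP_3fbbd3_h11
open scoped commutatorElement

universe u

namespace LEN

variable {G : Type u} [Group G]

lemma iter_normal (m k : ℕ) (X : Subgroup G) (hX : X.Normal) :
    ((fun X : Subgroup G => X.lowerCentralSeries m)^[k] X).Normal := by
  induction k with
  | zero => exact hX
  | succ k ih =>
    rw [Function.iterate_succ_apply']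
    exact Subgroup.lowerCentralSeries_normal _ m

lemma iter_map {H : Type u} [Group H] (f : G →* H) (m k : ℕ) (X : Subgroup G) :
    ((fun X : Subgroup G => X.lowerCentralSeries m)^[k] X).map f =
      (fun X : Subgroup H => X.lowerCentralSeries m)^[k] (X.map f) := by
  induction k with
  | zero => rfl
  | succ k ih =>
    rw [Function.iterate_succ_apply', Function.iterate_succ_apply', ← ih]
    exact map_lowerCentralSeries _ _ _

end LEN

theorem blk_LEN (hFITT : Stmt_FITT.{u}) : Stmt_LEN.{u} := by
  intro p G _ hG k
  induction k generalizing G with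
  | zero =>
    intro h
    exfalso
    have := hG.nontriv
    obtain ⟨x, hx⟩ := exists_ne (1 : G)
    obtain ⟨m, hm⟩ := h {x} (Set.finite_singleton x)
    have h1 : x ∈ normalClosure ({x} : Set G) := subset_normalClosure rfl
    have h2 : normalClosure ({x} : Set G) = ⊥ := hm
    rw [h2] at h1
    exact hx (mem_bot.1 h1)
  | succ k ih =>
    intro h
    have hnt := hG.nontriv
    by_cases hfit : sSup (RED.TT G) = ⊤
    · refine ⟨⊥, inferInstance, bot_ne_top, ?_⟩
      intro F hF
      obtain ⟨S, hS, hFS⟩ := RED.fin_sub (RED.TT G) (RED.TT_dir hFITT) RED.TT_ne F hF (by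
        intro x _
        rw [← mem_sSup_of_directedOn RED.TT_ne (RED.TT_dir hFITT), hfit]
        exact mem_top x)
      have hSn := hS.1
      have h1 : Group.IsNilpotent (normalClosure F) :=
        RED.nil_of_le (normalClosure_le_normal hFS) hS.2
      obtain ⟨n, hn⟩ := (isNilpotent_iff_lowerCentralSeries _).1 h1
      exact ⟨n, hn.le⟩
    · have hn : (sSup (RED.TT G)).Normal := RED.fit_normal hFITT
      have hctx : Ctx p (G ⧸ sSup (RED.TT G)) := RED.ctx_quot hG _ hfit
      have hsurj := QuotientGroup.mk'_surjective (sSup (RED.TT G))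
      obtain ⟨K, hK, hKt, hKF⟩ := ih (G ⧸ sSup (RED.TT G)) hctx (by
        intro F hF
        obtain ⟨m, hm⟩ := h ((fun q : G ⧸ sSup (RED.TT G) => Quotient.out q) '' F)
          (hF.image _)
        refine ⟨m, ?_⟩
        have h1 : F = QuotientGroup.mk' (sSup (RED.TT G)) ''
            ((fun q : G ⧸ sSup (RED.TT G) => Quotient.out q) '' F) := by
          rw [Set.image_image]
          have h2 : ∀ q : G ⧸ sSup (RED.TT G),
              QuotientGroup.mk' (sSup (RED.TT G)) (Quotient.out q) = q := Quotient.out_eq
          simp only [h2, Set.image_id']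
        rw [h1, ← map_normalClosure _ _ hsurj, ← LEN.iter_map, Subgroup.map_eq_bot_iff,
          QuotientGroup.ker_mk']
        rw [Function.iterate_succ_apply'] at hm
        exact le_sSup ⟨LEN.iter_normal _ _ _ normalClosure_normal,
          isNilpotent_of_lowerCentralSeries_eq_bot hm⟩)
      refine ⟨K.comap (QuotientGroup.mk' (sSup (RED.TT G))), inferInstance, ?_, ?_⟩
      · intro hh
        apply hKt
        rw [← map_comap_eq_self_of_surjective hsurj K, hh, map_top_of_surjective _ hsurj]
      · intro F hF
        obtain ⟨i, hi⟩ := hKF (QuotientGroup.mk' (sSup (RED.TT G)) '' F) (hF.image _)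
        refine ⟨i, ?_⟩
        rw [← Subgroup.map_le_iff_le_comap, map_lowerCentralSeries, map_normalClosure _ _ hsurj]
        exact hi

end Pool.Agent.Work.MP_3fbbd3_fit
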