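import Pool.Agent.Work.MP_3fbbd3_fit.Interface
import Pool.Agent.Work.MP_3fbbd3_h11.RED

/-! Block QUO: reduction to the quotient. -/

namespace Pool.Agent.Work.MP_3fbbd3_fit

open Subgroup
open Pool.Agent.Work.MP_3fbbd3_h11

universe u

theorem blk_QUO : Stmt_QUO.{u} := by
  classical
  intro p G _ hG hsol K hK hKtop hres
  have hsurj := QuotientGroup.mk'_surjective K
  refine ⟨G ⧸ K, inferInstance, RED.ctx_quot hG K hKtop, ?_, ?_⟩
  · intro F' hF' x' hx'
    obtain ⟨x, rfl⟩ := hsurj x'
    have hF : ((fun q : G ⧸ K => Quotient.out q) '' F').Finite := hF'.image _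
    have h1 : (normalClosure ((fun q : G ⧸ K => Quotient.out q) '' F')).map
        (QuotientGroup.mk' K) = normalClosure F' := by
      rw [map_normalClosure _ _ hsurj]
      congr 1
      ext q
      constructor
      · rintro ⟨_, ⟨q', hq', rfl⟩, rfl⟩
        have h2 : (QuotientGroup.mk' K) (Quotient.out q') = q' := Quotient.out_eq q'
        rw [h2]
        exact hq'
      · intro hq
        exact ⟨Quotient.out q, ⟨q, hq, rfl⟩, Quotient.out_eq q⟩
    have h2 : x ∈ K := by
      refine hres _ hF x fun i => ?_
      have h3 := hx' i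
      rw [← h1, ← map_lowerCentralSeries] at h3
      obtain ⟨y, hy, hyx⟩ := h3
      have h4 : y⁻¹ * x ∈ K := by
        have h5 : (QuotientGroup.mk' K) y = (QuotientGroup.mk' K) x := hyx
        exact QuotientGroup.eq.1 h5
      have h6 : x = y * (y⁻¹ * x) := by group
      rw [h6]
      exact mul_mem (mem_sup_left hy) (mem_sup_right h4)
    exact (QuotientGroup.eq_one_iff x).2 h2
  · intro H' hH'
    have hcne : H'.comap (QuotientGroup.mk' K) ≠ ⊤ := by
      intro hh
      apply hH'
      rw [← map_comap_eq_self_of_surjective hsurj H', hh, map_top_of_surjective _ hsurj]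
    have h1 := hsol _ hcne
    have h2 := (QuotientGroup.mk' K).subgroupComap_surjective_of_surjective H' hsurj
    exact Group.isSolvable_of_surjective h2

end Pool.Agent.Work.MP_3fbbd3_fit
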