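import Pool.Agent.Work.MP_3fbbd3_fit.Interface

/-! Block RR: the conjugates of a constant by a small normal subgroup are bounded modulo `C`. -/

namespace Pool.Agent.Work.MP_3fbbd3_fit

open Subgroup Filter
open Pool.Agent.Work.MP_3fbbd3_h11
open scoped commutatorElement

universe u

namespace RR

variable {G : Type u} [Group G]

/-- the inclusion of a small normal subgroup as an element of `PP` -/
def incl (N : Subgroup G) (hN : N ∈ NN G) : PP N G :=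
  ⟨fun v => (v : G), Subgroup.subset_closure (Or.inl ⟨N.subtype, ⟨N, hN, fun v => v.2⟩,
    fun _ => rfl⟩)⟩

lemma incl_mem (N : Subgroup G) (hN : N ∈ NN G) : incl N hN ∈ P1 N G := by
  show (evv G (1 : N)) (incl N hN) = 1
  rfl

/-- the function `v ↦ x⁻¹ v x v⁻¹` is in `EP` -/
lemma mem_EP (N : Subgroup G) (hN : N ∈ NN G) (x : G) :
    (con N G x)⁻¹ * ⁅incl N hN, con N G x⁆ * (con N G x)⁻¹⁻¹ ∈ EP N G := by
  have hn : (EP N G).Normal := normalClosure_normal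
  exact hn.conj_mem _ (subset_normalClosure ⟨_, incl_mem N hN, x, rfl⟩) _

lemma val (N : Subgroup G) (hN : N ∈ NN G) (x : G) (v : N) :
    ((con N G x)⁻¹ * ⁅incl N hN, con N G x⁆ * (con N G x)⁻¹⁻¹).1 v =
      x⁻¹ * (v : G) * x * (v : G)⁻¹ := by
  have h1 : ((con N G x)⁻¹ * ⁅incl N hN, con N G x⁆ * (con N G x)⁻¹⁻¹).1 v =
      x⁻¹ * ((v : G) * x * (v : G)⁻¹ * x⁻¹) * x⁻¹⁻¹ := rfl
  rw [h1]
  group

end RR

theorem blk_RR (hSYN : Stmt_SYN.{u}) (hCOM : Stmt_COM.{u}) : Stmt_RR.{u} := by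
  intro G _ C hC N hN x
  have hNn : N.Normal := hN.1
  obtain ⟨S, hS, hSv⟩ := hSYN N {v : N | x⁻¹ * (v : G) * x * (v : G)⁻¹ ∈ C} (by
    have h1 := hC N _ (RR.mem_EP N hN x)
    filter_upwards [h1] with v hv
    rw [RR.val] at hv
    exact hv)
  have h2 : ∀ t : N, ∃ Y : Set G, Y.Finite ∧ ∀ b ∈ {y : G | ∃ m : G, m ∈ C ∧ m ∈ N ∧
      y = m * (t : G)}, ∃ y ∈ Y, y⁻¹ * b ∈ C := fun t => hCOM G C hC N hN t
  choose Y hY hYb using h2
  refine ⟨⋃ t ∈ S, (fun y => (t : G)⁻¹ * x * y) '' Y t, hS.biUnion fun t _ => (hY t).image _, ?_⟩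
  rintro _ ⟨v, hv, rfl⟩
  obtain ⟨t, ht, htv⟩ := hSv ⟨v, hv⟩
  have hc : x⁻¹ * ((t : G) * v) * x * ((t : G) * v)⁻¹ ∈ C := htv
  have hcN : x⁻¹ * ((t : G) * v) * x * ((t : G) * v)⁻¹ ∈ N := by
    have h3 : (t : G) * v ∈ N := mul_mem t.2 hv
    have h4 := hNn.conj_mem _ h3 x⁻¹
    rw [inv_inv] at h4
    exact mul_mem h4 (inv_mem h3)
  obtain ⟨y, hy, hyC⟩ := hYb t _ ⟨_, hc, hcN, rfl⟩
  refine ⟨(t : G)⁻¹ * x * y, ?_, ?_⟩
  · simp only [Set.mem_iUnion]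
    exact ⟨t, ht, y, hy, rfl⟩
  · have h5 : ((t : G)⁻¹ * x * y)⁻¹ * (v * x * v⁻¹) =
        y⁻¹ * (x⁻¹ * ((t : G) * v) * x * ((t : G) * v)⁻¹ * (t : G)) := by
      group
    rw [h5]
    exact hyC

end Pool.Agent.Work.MP_3fbbd3_fit
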