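import Pool.Agent.Work.MP_3fbbd3_fit.Interface

/-! Block RRR: conjugates of commutators with a constant are bounded. -/

namespace Pool.Agent.Work.MP_3fbbd3_fit

open Subgroup Filter
open Pool.Agent.Work.MP_3fbbd3_h11
open scoped commutatorElement

universe u

namespace RRR

variable {G : Type u} [Group G]

theorem bd_mono {C : Subgroup G} {A B : Set G} (h : A ⊆ B) (hB : Bd C B) : Bd C A := by
  obtain ⟨Y, hY, hY'⟩ := hB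
  exact ⟨Y, hY, fun b hb => hY' b (h hb)⟩

theorem bd_iUnion {C : Subgroup G} {ι : Type*} {S : Set ι} (hS : S.Finite) (B : ι → Set G)
    (h : ∀ i ∈ S, Bd C (B i)) : Bd C {x | ∃ i ∈ S, x ∈ B i} := by
  choose! Y hY hY' using h
  refine ⟨⋃ i ∈ S, Y i, hS.biUnion fun i hi => hY i hi, ?_⟩
  rintro b ⟨i, hi, hb⟩
  obtain ⟨y, hy, hyb⟩ := hY' i hi b hb
  exact ⟨y, Set.mem_biUnion hi hy, hyb⟩

/-- the coordinate functions -/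
def cf {T : Type u} [Group T] (N : Subgroup G) (hN : N ∈ NN G) (φ : T →* N) : PP T G :=
  ⟨fun x => (φ x : G), Subgroup.subset_closure
    (Or.inl ⟨N.subtype.comp φ, ⟨N, hN, fun x => (φ x).2⟩, fun _ => rfl⟩)⟩

theorem cf_P1 {T : Type u} [Group T] (N : Subgroup G) (hN : N ∈ NN G) (φ : T →* N) :
    cf N hN φ ∈ P1 T G := by
  refine MonoidHom.mem_ker.2 ?_
  change ((φ 1 : N) : G) = 1
  rw [map_one]
  rfl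

end RRR

open RRR in
theorem blk_RRR (hSYN : Stmt_SYN.{u}) (_hCOM : Stmt_COM.{u}) (hRR : Stmt_RR.{u})
    (hBDM : Stmt_BDM.{u}) : Stmt_RRR.{u} := by
  intro G _ C hC N hN u
  have hNn : N.Normal := hN.1
  -- the function `e`
  let y₁ : PP (↥N × ↥N) G := cf N hN (MonoidHom.fst N N)
  let y₂ : PP (↥N × ↥N) G := cf N hN (MonoidHom.snd N N)
  let e : PP (↥N × ↥N) G :=
    y₂ * (con (↥N × ↥N) G u * y₁⁻¹ * (con (↥N × ↥N) G u)⁻¹ * y₁) * y₂⁻¹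
  have he : e ∈ EP (↥N × ↥N) G := by
    have hn : (EP (↥N × ↥N) G).Normal := normalClosure_normal
    refine hn.conj_mem _ ?_ _
    have h1 : ⁅y₁⁻¹, con (↥N × ↥N) G u⁆ ∈ EP (↥N × ↥N) G :=
      subset_normalClosure ⟨y₁⁻¹, inv_mem (cf_P1 _ _ _), u, rfl⟩
    have h2 := inv_mem h1
    rw [commutatorElement_inv, commutatorElement_def, inv_inv] at h2
    exact h2
  obtain ⟨S, hS, hSA⟩ := hSYN (↥N × ↥N) {k | e.1 k ∈ C} (hC (↥N × ↥N) e he)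
  have heval : ∀ k : ↥N × ↥N, e.1 k = (k.2 : G) * (u * (k.1 : G)⁻¹ * u⁻¹ * (k.1 : G)) *
    (k.2 : G)⁻¹ := fun k => rfl
  have hgN : ∀ v : G, v ∈ N → u * v⁻¹ * u⁻¹ * v ∈ N := fun v hv =>
    mul_mem (hNn.conj_mem _ (inv_mem hv) u) hv
  -- first set
  have hB₁ : Bd C {x : G | ∃ t ∈ S, x ∈ {x : G | ∃ b ∈ {m : G | m ∈ C ∧ m ∈ N},
      x = (t.2 : G)⁻¹ * b * ((t.2 : G)⁻¹)⁻¹}} := by
    refine bd_iUnion hS (fun t => {x : G | ∃ b ∈ {m : G | m ∈ C ∧ m ∈ N},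
      x = (t.2 : G)⁻¹ * b * ((t.2 : G)⁻¹)⁻¹}) fun t _ => ?_
    have h0 : Bd C {m : G | m ∈ C ∧ m ∈ N} :=
      ⟨{1}, Set.finite_singleton _, fun b hb => ⟨1, rfl, by simpa using hb.1⟩⟩
    exact (hBDM G C hC N hN _ _ (fun x hx => hx.2) (fun x hx => hx.2) h0 h0).2.2 _
  have hB₂ : Bd C {x : G | ∃ t ∈ S, x ∈ {y : G | ∃ v ∈ N,
      y = v * (u * (t.1 : G)⁻¹ * u⁻¹ * (t.1 : G)) * v⁻¹}} :=
    bd_iUnion hS (fun t => {y : G | ∃ v ∈ N,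
      y = v * (u * (t.1 : G)⁻¹ * u⁻¹ * (t.1 : G)) * v⁻¹}) fun t _ => hRR G C hC N hN _
  have hB₁N : {x : G | ∃ t ∈ S, x ∈ {x : G | ∃ b ∈ {m : G | m ∈ C ∧ m ∈ N},
      x = (t.2 : G)⁻¹ * b * ((t.2 : G)⁻¹)⁻¹}} ⊆ (N : Set G) := by
    rintro x ⟨t, -, b, hb, rfl⟩
    exact hNn.conj_mem _ hb.2 _
  have hB₂N : {x : G | ∃ t ∈ S, x ∈ {y : G | ∃ v ∈ N,
      y = v * (u * (t.1 : G)⁻¹ * u⁻¹ * (t.1 : G)) * v⁻¹}} ⊆ (N : Set G) := by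
    rintro x ⟨t, -, v, hv, rfl⟩
    exact hNn.conj_mem _ (hgN _ t.1.2) _
  have hB₂' := (hBDM G C hC N hN _ _ hB₂N hB₂N hB₂ hB₂).2.1
  have hB := (hBDM G C hC N hN _ _ hB₁N (by
    rintro x ⟨b, hb, rfl⟩
    exact inv_mem (hB₂N hb)) hB₁ hB₂').1
  refine bd_mono ?_ hB
  rintro y ⟨v₁, hv₁, v₂, hv₂, rfl⟩
  obtain ⟨t, htS, ht⟩ := hSA (⟨v₁, hv₁⟩, ⟨v₂, hv₂⟩)
  have htv : e.1 (t * (⟨v₁, hv₁⟩, ⟨v₂, hv₂⟩)) ∈ C := ht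
  rw [heval] at htv
  have hc : ((t.2 : G) * v₂) * (u * ((t.1 : G) * v₁)⁻¹ * u⁻¹ * ((t.1 : G) * v₁)) *
      ((t.2 : G) * v₂)⁻¹ ∈ C := htv
  have hcN : ((t.2 : G) * v₂) * (u * ((t.1 : G) * v₁)⁻¹ * u⁻¹ * ((t.1 : G) * v₁)) *
      ((t.2 : G) * v₂)⁻¹ ∈ N :=
    hNn.conj_mem _ (hgN _ (mul_mem t.1.2 hv₁)) _
  refine ⟨_, ⟨t, htS, _, ⟨hc, hcN⟩, rfl⟩, _, ⟨_, ⟨t, htS, v₂ * v₁⁻¹,
    mul_mem hv₂ (inv_mem hv₁), rfl⟩, rfl⟩, ?_⟩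
  group

end Pool.Agent.Work.MP_3fbbd3_fit
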