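import Pool.Agent.Work.MP_3fbbd3_fit.Interface

/-!
MP_3fbbd3_al, block SYN (helper89): a set which is in all idempotent ultrafilters is syndetic.
-/

namespace Pool.Agent.Work.MP_3fbbd3_fit

open Filter
open Pool.Agent.Work.MP_3fbbd3_h11

universe u

attribute [local instance] Ultrafilter.mul Ultrafilter.semigroup

namespace SYN

variable {T : Type u} [Group T] (A : Set T)

open Classical in
/-- the finite sets of the construction -/
noncomputable def SS (v : Finset T → T) : ℕ → Finset T
  | 0 => {1}
  | m + 1 => SS v m ∪ (SS v m).image (fun t => t * v (SS v m))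

/-- the stream of the construction -/
noncomputable def st (v : Finset T → T) : Stream' T := fun m => v (SS v m)

open Classical in
theorem sub (v : Finset T → T) (m : ℕ) : SS v m ⊆ SS v (m + 1) := by
  intro t ht
  rw [SS, Finset.mem_union]
  exact Or.inl ht

open Classical in
theorem mul_mem' (v : Finset T → T) (m : ℕ) {t : T} (ht : t ∈ SS v m) :
    t * v (SS v m) ∈ SS v (m + 1) := by
  rw [SS, Finset.mem_union, Finset.mem_image]
  exact Or.inr ⟨t, ht, rfl⟩

theorem claim (v : Finset T → T) (hv : ∀ S : Finset T, ∀ t ∈ S, t * v S ∉ A) {b : Stream' T}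
    {x : T} (h : Hindman.FP b x) :
    ∀ m, b = (st v).drop m → ∀ t ∈ SS v m, t * x ∉ A := by
  induction h with
  | head' b =>
    intro m hb t ht
    have h1 : b.head = v (SS v m) := by
      rw [hb]
      change (st v) (0 + m) = _
      rw [Nat.zero_add]
      rfl
    rw [h1]
    exact hv _ t ht
  | tail' b y h ih =>
    intro m hb t ht
    refine ih (m + 1) ?_ t (sub v m ht)
    rw [hb, Stream'.tail_drop']
  | cons' b y h ih =>
    intro m hb t ht
    have h1 : b.head = v (SS v m) := by
      rw [hb]
      change (st v) (0 + m) = _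
      rw [Nat.zero_add]
      rfl
    rw [h1, ← mul_assoc]
    refine ih (m + 1) ?_ _ (mul_mem' v m ht)
    rw [hb, Stream'.tail_drop']

end SYN

theorem blk_SYN : Stmt_SYN.{u} := by
  intro T _ A hA
  by_contra hcon
  push Not at hcon
  have h1 : ∀ S : Finset T, ∃ w : T, ∀ t ∈ S, t * w ∉ A := by
    intro S
    obtain ⟨w, hw⟩ := hcon (S : Set T) S.finite_toSet
    exact ⟨w, fun t ht => hw t (by exact_mod_cast ht)⟩
  choose v hv using h1
  obtain ⟨U, hUU, hU⟩ := Hindman.exists_idempotent_ultrafilter_le_FP (SYN.st v)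
  have hid : Idem U := by
    intro q hq
    have h : ∀ᶠ x in ((U * U : Ultrafilter T) : Filter T), q x := by
      rw [hUU]
      exact hq
    rwa [Ultrafilter.eventually_mul] at h
  have hAU : ∀ᶠ x in (U : Filter T), x ∈ A := by
    have h2 := hA
    unfold Lg at h2
    rw [Filter.mem_iSup] at h2
    exact h2 ⟨U, hid⟩
  obtain ⟨x, hx1, hx2⟩ := (hU.and hAU).exists
  have h3 := SYN.claim A v hv hx1 0 rfl 1 (by rw [SYN.SS]; exact Finset.mem_singleton_self _)
  rw [one_mul] at h3
  exact h3 hx2

end Pool.Agent.Work.MP_3fbbd3_fit
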