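import Pool.Agent.Work.MP_3fbbd3_fit.Interface

/-!
Block TR: translations of the functions in `PP`.
-/

namespace Pool.Agent.Work.MP_3fbbd3_fit

open Subgroup Filter
open Pool.Agent.Work.MP_3fbbd3_h11
open scoped commutatorElement

universe u

namespace TR

variable {T : Type u} [Group T] {G : Type u} [Group G]

theorem shift_mem (t : T) (f : T → G) (hf : f ∈ PP T G) : (fun k => f (t * k)) ∈ PP T G := by
  refine Subgroup.closure_induction (p := fun (f : T → G) _ => (fun k => f (t * k)) ∈ PP T G)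
    ?_ ?_ ?_ ?_ hf
  · intro f hf
    rcases hf with ⟨φ, hN, hφ⟩ | ⟨c, hc⟩
    · have h1 : (fun _ : T => φ t) ∈ PP T G := Subgroup.subset_closure (Or.inr ⟨φ t, fun _ => rfl⟩)
      have h2 : (fun k : T => φ k) ∈ PP T G :=
        Subgroup.subset_closure (Or.inl ⟨φ, hN, fun _ => rfl⟩)
      have h3 := mul_mem h1 h2
      have e : (fun k => f (t * k)) = (fun _ : T => φ t) * (fun k : T => φ k) := by
        funext k
        simp [hφ]
      rw [e]
      exact h3
    · exact Subgroup.subset_closure (Or.inr ⟨c, fun _ => hc _⟩)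
  · exact one_mem _
  · intro f g _ _ hf hg
    exact mul_mem hf hg
  · intro f _ hf
    exact inv_mem hf

/-- translation by `t` -/
def tau (t : T) : PP T G →* PP T G where
  toFun f := ⟨fun k => f.1 (t * k), shift_mem t f.1 f.2⟩
  map_one' := rfl
  map_mul' _ _ := rfl

instance : (EP T G).Normal := Subgroup.normalClosure_normal

/-- the projection modulo `EP` -/
def pr : PP T G →* (PP T G) ⧸ (EP T G) := QuotientGroup.mk' (EP T G)

theorem pr_comm (y : PP T G) (hy : y ∈ P1 T G) (u : G) :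
    pr y * pr (con T G u) = pr (con T G u) * pr y := by
  have h : ⁅y, con T G u⁆ ∈ EP T G := Subgroup.subset_normalClosure ⟨y, hy, u, rfl⟩
  have h2 : pr ⁅y, con T G u⁆ = 1 := (QuotientGroup.eq_one_iff _).mpr h
  rw [commutatorElement_def, map_mul, map_mul, map_mul, map_inv, map_inv] at h2
  have h3 := eq_mul_inv_of_mul_eq (eq_mul_inv_of_mul_eq h2)
  rw [one_mul] at h3
  rw [mul_inv_eq_iff_eq_mul] at h2
  rw [mul_inv_eq_iff_eq_mul, one_mul] at h2
  exact h2

/-- the normalised function -/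
def nf (f : PP T G) : PP T G := (con T G (f.1 1))⁻¹ * f

theorem nf_mem (f : PP T G) : nf f ∈ P1 T G := by
  change evv G (1 : T) (nf f) = 1
  change (f.1 1)⁻¹ * f.1 1 = 1
  group

theorem pr_nf_mul (f g : PP T G) : pr (nf (f * g)) = pr (nf f) * pr (nf g) := by
  have h1 : nf (f * g) = (con T G (g.1 1))⁻¹ * nf f * g := by
    unfold nf
    have : (f * g).1 1 = f.1 1 * g.1 1 := rfl
    rw [this, map_mul]
    group
  have h2 : nf g = (con T G (g.1 1))⁻¹ * g := rfl
  have h3 := pr_comm (nf f) (nf_mem f) (g.1 1)⁻¹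
  rw [h1, h2, map_mul, map_mul, map_mul, ← map_inv (con T G), ← h3, mul_assoc]

/-- the second description of the translation -/
def sig (t : T) : PP T G →* (PP T G) ⧸ (EP T G) where
  toFun f := pr (con T G (f.1 t)) * pr (nf f)
  map_one' := by
    have h1 : nf (1 : PP T G) = 1 := by
      unfold nf
      have : (1 : PP T G).1 1 = 1 := rfl
      rw [this, map_one]
      group
    have h2 : (1 : PP T G).1 t = 1 := rfl
    rw [h1, h2, map_one, map_one, one_mul]
  map_mul' f g := by
    have h2 : (f * g).1 t = f.1 t * g.1 t := rfl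
    rw [h2, map_mul, map_mul, pr_nf_mul, mul_assoc, mul_assoc, ← mul_assoc (pr (con T G (g.1 t))),
      ← pr_comm (nf f) (nf_mem f), mul_assoc]

theorem pr_tau (t : T) (f : PP T G) : pr (tau t f) = sig t f := by
  obtain ⟨f, hf⟩ := f
  refine Subgroup.closure_induction
    (p := fun (f : T → G) hf => pr (tau t ⟨f, hf⟩) = sig t ⟨f, hf⟩) ?_ ?_ ?_ ?_ hf
  · intro f hf
    rcases hf with ⟨φ, hN, hφ⟩ | ⟨c, hc⟩
    · change _ = pr (con T G (f t)) * pr ((con T G (f 1))⁻¹ * _)
      rw [← map_mul]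
      congr 1
      apply Subtype.ext
      funext k
      change f (t * k) = f t * ((f 1)⁻¹ * f k)
      simp [hφ]
    · change _ = pr (con T G (f t)) * pr ((con T G (f 1))⁻¹ * _)
      rw [← map_mul]
      congr 1
      apply Subtype.ext
      funext k
      change f (t * k) = f t * ((f 1)⁻¹ * f k)
      simp [hc]
  · exact ((pr.comp (tau t)).map_one).trans (sig t).map_one.symm
  · intro f g hf hg h1 h2
    have e : (⟨f * g, mul_mem hf hg⟩ : PP T G) = ⟨f, hf⟩ * ⟨g, hg⟩ := rfl
    rw [e, map_mul, map_mul, map_mul, h1, h2]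
  · intro f hf h1
    have e : (⟨f⁻¹, inv_mem hf⟩ : PP T G) = (⟨f, hf⟩)⁻¹ := rfl
    rw [e, map_inv, map_inv, map_inv, h1]

end TR

open TR in
theorem blk_TR : Stmt_TR.{u} := by
  intro T _ G _ f hf t
  have hf1 : f.1 1 = 1 := hf
  refine ⟨(con T G (f.1 t))⁻¹ * tau t f * f⁻¹, ?_, ?_⟩
  · have h := pr_tau t f
    have h2 : sig t f = pr (con T G (f.1 t)) * pr f := by
      change pr (con T G (f.1 t)) * pr ((con T G (f.1 1))⁻¹ * f) = _
      rw [hf1, map_one, inv_one, one_mul]
    rw [h2] at h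
    apply (QuotientGroup.eq_one_iff _).mp
    change pr ((con T G (f.1 t))⁻¹ * tau t f * f⁻¹) = 1
    rw [map_mul, map_mul, map_inv, map_inv, h]
    group
  · intro k
    change f.1 (t * k) = f.1 t * ((f.1 t)⁻¹ * f.1 (t * k) * (f.1 k)⁻¹) * f.1 k
    group

end Pool.Agent.Work.MP_3fbbd3_fit
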