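import Pool.Agent.Work.MP_3fbbd3_fit.Interface

/-! Block VS: a commensurated subgroup over which a solvable locally finite group is finitely
generated has finite index. -/

namespace Pool.Agent.Work.MP_3fbbd3_fit

open Subgroup Filter
open Pool.Agent.Work.MP_3fbbd3_h11
open scoped commutatorElement

universe u

namespace VS

variable {G : Type u} [Group G]

theorem dw_der (D : Subgroup G) : ∀ n, (dw n).ev ⁅D, D⁆ = (dw (n + 1)).ev D
  | 0 => rfl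
  | n + 1 => by
    change ⁅(dw n).ev ⁅D, D⁆, (dw n).ev ⁅D, D⁆⁆ = _
    rw [dw_der D n]
    rfl

theorem relIndex_of_cover {M D : Subgroup G} (Y : Set G) (hY : Y.Finite)
    (h : ∀ d ∈ D, ∃ y ∈ Y, y⁻¹ * d ∈ M) : M.relIndex D ≠ 0 := by
  choose! f hf1 hf2 using h
  have : Finite Y := hY
  have hfin : Finite (D ⧸ M.subgroupOf D) := by
    refine Finite.of_injective
      (fun q : D ⧸ M.subgroupOf D => (⟨f (Quotient.out q : D), hf1 _ (Quotient.out q : D).2⟩ : Y)) ?_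
    intro q q' hqq
    have h1 : f (Quotient.out q : D) = f (Quotient.out q' : D) := congrArg Subtype.val hqq
    have h2 := hf2 _ (Quotient.out q : D).2
    have h3 := hf2 _ (Quotient.out q' : D).2
    rw [← h1] at h3
    rw [← QuotientGroup.out_eq' q, ← QuotientGroup.out_eq' q', QuotientGroup.eq]
    rw [mem_subgroupOf]
    have h4 := mul_mem (inv_mem h2) h3
    have h5 : ((f ((Quotient.out q : D) : G))⁻¹ * ((Quotient.out q : D) : G))⁻¹ *
        ((f ((Quotient.out q : D) : G))⁻¹ * ((Quotient.out q' : D) : G)) =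
        ((((Quotient.out q : D))⁻¹ * (Quotient.out q' : D) : D) : G) := by
      rw [coe_mul, coe_inv]
      group
    rwa [h5] at h4
  rw [relIndex]
  exact index_ne_zero_of_finite

theorem cover_of_relIndex {M D : Subgroup G} (h : M.relIndex D ≠ 0) :
    ∃ Y : Set G, Y.Finite ∧ (∀ y ∈ Y, y ∈ D) ∧ ∀ d ∈ D, ∃ y ∈ Y, y⁻¹ * d ∈ M := by
  rw [relIndex] at h
  have hfi : (M.subgroupOf D).FiniteIndex := ⟨h⟩
  have hfin : Finite (D ⧸ M.subgroupOf D) := inferInstance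
  refine ⟨Set.range fun q : D ⧸ M.subgroupOf D => ((Quotient.out q : D) : G),
    Set.finite_range _, ?_, ?_⟩
  · rintro _ ⟨q, rfl⟩
    exact (Quotient.out q : D).2
  · intro d hd
    refine ⟨_, ⟨QuotientGroup.mk ⟨d, hd⟩, rfl⟩, ?_⟩
    have h1 : (QuotientGroup.mk (Quotient.out (QuotientGroup.mk ⟨d, hd⟩ : D ⧸ M.subgroupOf D)) :
        D ⧸ M.subgroupOf D) = QuotientGroup.mk ⟨d, hd⟩ := QuotientGroup.out_eq' _
    rw [QuotientGroup.eq, mem_subgroupOf] at h1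
    exact h1

theorem step (hlf : ∀ s : Set G, s.Finite → ((Subgroup.closure s : Subgroup G) : Set G).Finite)
    (D M : Subgroup G) (F : Set G) (hMD : M ≤ D) (hF : F.Finite)
    (hD : D = Subgroup.closure ((M : Set G) ∪ F))
    (hBd : ∀ r ∈ D, Bd M {x : G | ∃ m ∈ M, x = m * r})
    (ih : ∀ (M' : Subgroup G) (F' : Set G), M' ≤ ⁅D, D⁆ → F'.Finite →
      ⁅D, D⁆ = Subgroup.closure ((M' : Set G) ∪ F') →
      (∀ r ∈ ⁅D, D⁆, Bd M' {x : G | ∃ m ∈ M', x = m * r}) → M'.relIndex ⁅D, D⁆ ≠ 0) :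
    M.relIndex D ≠ 0 := by
  classical
  set D' : Subgroup G := ⁅D, D⁆ with hD'
  have hD'D : D' ≤ D := by
    rw [hD', commutator_le]
    intro x hx y hy
    rw [commutatorElement_def]
    exact mul_mem (mul_mem (mul_mem hx hy) (inv_mem hx)) (inv_mem hy)
  have hcm : ∀ x ∈ D, ∀ y ∈ D, x * y * x⁻¹ * y⁻¹ ∈ D' := by
    intro x hx y hy
    have h1 := commutator_mem_commutator hx hy
    rwa [commutatorElement_def] at h1
  have hcj : ∀ x ∈ D, ∀ y ∈ D', x * y * x⁻¹ ∈ D' := by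
    intro x hx y hy
    have h1 := mul_mem (hcm x hx y (hD'D hy)) hy
    have e : x * y * x⁻¹ * y⁻¹ * y = x * y * x⁻¹ := by group
    rwa [e] at h1
  have hFD : ∀ f ∈ F, f ∈ D := by
    intro f hf
    rw [hD]
    exact subset_closure (Or.inr hf)
  set K : Subgroup G := Subgroup.closure F with hK
  have hKD : K ≤ D := by
    rw [hK, closure_le]
    exact hFD
  have hKf : (K : Set G).Finite := hlf F hF
  -- step 1
  have h1 : ∀ x ∈ D, ∃ d ∈ D', ∃ k ∈ K, ∃ m ∈ M, x = d * k * m := by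
    intro x hx
    rw [hD] at hx
    induction hx using Subgroup.closure_induction with
    | mem x hx =>
      rcases hx with hx | hx
      · exact ⟨1, one_mem _, 1, one_mem _, x, hx, by group⟩
      · exact ⟨1, one_mem _, x, subset_closure hx, 1, one_mem _, by group⟩
    | one => exact ⟨1, one_mem _, 1, one_mem _, 1, one_mem _, by group⟩
    | mul x y _ _ hx hy =>
      obtain ⟨d₁, hd₁, k₁, hk₁, m₁, hm₁, rfl⟩ := hx
      obtain ⟨d₂, hd₂, k₂, hk₂, m₂, hm₂, rfl⟩ := hy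
      refine ⟨d₁ * ((k₁ * m₁) * d₂ * (k₁ * m₁)⁻¹) * (k₁ * (m₁ * k₂ * m₁⁻¹ * k₂⁻¹) * k₁⁻¹), ?_,
        k₁ * k₂, mul_mem hk₁ hk₂, m₁ * m₂, mul_mem hm₁ hm₂, by group⟩
      exact mul_mem (mul_mem hd₁ (hcj _ (mul_mem (hKD hk₁) (hMD hm₁)) _ hd₂))
        (hcj _ (hKD hk₁) _ (hcm _ (hMD hm₁) _ (hKD hk₂)))
    | inv x _ hx =>
      obtain ⟨d, hd, k, hk, m, hm, rfl⟩ := hx
      refine ⟨(m⁻¹ * k⁻¹) * d⁻¹ * (m⁻¹ * k⁻¹)⁻¹ * (m⁻¹ * k⁻¹ * m⁻¹⁻¹ * k⁻¹⁻¹), ?_,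
        k⁻¹, inv_mem hk, m⁻¹, inv_mem hm, by group⟩
      exact mul_mem (hcj _ (mul_mem (inv_mem (hMD hm)) (inv_mem (hKD hk))) _ (inv_mem hd))
        (hcm _ (inv_mem (hMD hm)) _ (inv_mem (hKD hk)))
  have h1' := h1
  choose! dd hdd hdd2 using h1
  -- the finite set Y
  obtain ⟨Y, hYf, hYD, hY⟩ : ∃ Y : Set G, Y.Finite ∧ (∀ y ∈ Y, y ∈ D) ∧
      ∀ f ∈ K, ∀ m ∈ M, ∃ y ∈ Y, y⁻¹ * (m * f) ∈ M := by
    have h2 : ∀ f ∈ K, ∃ Y : Set G, Y.Finite ∧ ∀ b ∈ {x : G | ∃ m ∈ M, x = m * f},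
        ∃ y ∈ Y, y⁻¹ * b ∈ M := fun f hf => hBd f (hKD hf)
    choose! Yf hYf1 hYf2 using h2
    refine ⟨(⋃ f ∈ (K : Set G), Yf f) ∩ D, ?_, ?_, ?_⟩
    · exact (hKf.biUnion fun f hf => hYf1 f hf).inter_of_left _
    · intro y hy
      exact hy.2
    · intro f hf m hm
      obtain ⟨y, hy, hym⟩ := hYf2 f hf (m * f) ⟨m, hm, rfl⟩
      refine ⟨y, ⟨Set.mem_biUnion (show f ∈ (K : Set G) from hf) hy, ?_⟩, hym⟩
      have h3 : y = (m * f) * (y⁻¹ * (m * f))⁻¹ := by group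
      rw [h3]
      exact mul_mem (mul_mem (hMD hm) (hKD hf)) (inv_mem (hMD hym))
  -- the representatives in D'
  have hee : ∀ t : G, (∃ m ∈ M, t * m ∈ D') → ∃ e ∈ D', t⁻¹ * e ∈ M := by
    rintro t ⟨m, hm, h⟩
    refine ⟨t * m, h, ?_⟩
    rw [inv_mul_cancel_left]
    exact hm
  choose! ee hee1 hee2 using hee
  set F' : Set G := (Set.image2 (fun t y => dd (t * y)) K Y) ∪
    (ee '' {t | t ∈ K ∧ ∃ m ∈ M, t * m ∈ D'}) with hF'
  have hF'f : F'.Finite := by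
    refine (Set.Finite.image2 _ hKf hYf).union ((hKf.subset ?_).image _)
    intro t ht
    exact ht.1
  have hF'D : ∀ x ∈ F', x ∈ D' := by
    rintro x (⟨t, ht, y, hy, rfl⟩ | ⟨t, ht, rfl⟩)
    · exact hdd _ (mul_mem (hKD ht) (hYD y hy))
    · exact hee1 t ht.2
  set Λ : Subgroup G := Subgroup.closure (((M ⊓ D' : Subgroup G) : Set G) ∪ F') with hΛ
  have hΛD : Λ ≤ D' := by
    rw [hΛ, closure_le]
    rintro x (hx | hx)
    · exact (mem_inf.1 hx).2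
    · exact hF'D x hx
  have h2 : ∀ x ∈ D, ∃ l ∈ Λ, ∃ t ∈ K, ∃ m ∈ M, x = l * t * m := by
    -- right multiplication by elements of K
    have hr : ∀ x : G, (∃ l ∈ Λ, ∃ t ∈ K, ∃ m ∈ M, x = l * t * m) → ∀ f ∈ K,
        ∃ l ∈ Λ, ∃ t ∈ K, ∃ m ∈ M, x * f = l * t * m := by
      rintro _ ⟨l, hl, t, ht, m, hm, rfl⟩ f hf
      obtain ⟨y, hy, hym⟩ := hY f hf m hm
      obtain ⟨t', ht', m', hm', he⟩ := hdd2 (t * y) (mul_mem (hKD ht) (hYD y hy))
      refine ⟨l * dd (t * y), mul_mem hl (subset_closure (Or.inr (Or.inl ⟨t, ht, y, hy, rfl⟩))),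
        t', ht', m' * (y⁻¹ * (m * f)), mul_mem hm' hym, ?_⟩
      calc l * t * m * f = l * (t * y) * (y⁻¹ * (m * f)) := by group
        _ = l * (dd (t * y) * t' * m') * (y⁻¹ * (m * f)) := by rw [← he]
        _ = _ := by group
    have hr' : ∀ x : G, (∃ l ∈ Λ, ∃ t ∈ K, ∃ m ∈ M, x = l * t * m) → ∀ f ∈ M,
        ∃ l ∈ Λ, ∃ t ∈ K, ∃ m ∈ M, x * f = l * t * m := by
      rintro _ ⟨l, hl, t, ht, m, hm, rfl⟩ f hf
      exact ⟨l, hl, t, ht, m * f, mul_mem hm hf, by group⟩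
    intro x hx
    rw [hD] at hx
    induction hx using Subgroup.closure_induction_right with
    | one => exact ⟨1, one_mem _, 1, one_mem _, 1, one_mem _, by group⟩
    | mul_right x _ y hy hx =>
      rcases hy with hy | hy
      · exact hr' x hx y hy
      · exact hr x hx y (subset_closure hy)
    | mul_inv_cancel x _ y hy hx =>
      rcases hy with hy | hy
      · exact hr' x hx y⁻¹ (inv_mem hy)
      · exact hr x hx y⁻¹ (inv_mem (subset_closure hy))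
  have hΛ' : D' = Λ := by
    refine le_antisymm (fun d hd => ?_) hΛD
    obtain ⟨l, hl, t, ht, m, hm, he⟩ := h2 d (hD'D hd)
    have h3 : t * m ∈ D' := by
      have e : t * m = l⁻¹ * d := by rw [he]; group
      rw [e]
      exact mul_mem (inv_mem (hΛD hl)) hd
    have h4 := hee1 t ⟨m, hm, h3⟩
    have h5 := hee2 t ⟨m, hm, h3⟩
    have h6 : ee t ∈ Λ := subset_closure (Or.inr (Or.inr ⟨t, ⟨ht, m, hm, h3⟩, rfl⟩))
    have h7 : (ee t)⁻¹ * (t * m) ∈ Λ := by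
      refine subset_closure (Or.inl (mem_inf.2 ⟨?_, mul_mem (inv_mem h4) h3⟩))
      have e : (ee t)⁻¹ * (t * m) = (t⁻¹ * ee t)⁻¹ * m := by group
      rw [e]
      exact mul_mem (inv_mem h5) hm
    have e : d = l * ee t * ((ee t)⁻¹ * (t * m)) := by rw [he]; group
    rw [e]
    exact mul_mem (mul_mem hl h6) h7
  -- step 3
  have h3 : (M ⊓ D').relIndex D' ≠ 0 := by
    refine ih (M ⊓ D') F' inf_le_right hF'f hΛ' fun r hr => ?_
    obtain ⟨Y₁, hY₁, hY₂⟩ := hBd r (hD'D hr)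
    refine ⟨ee '' {t | t ∈ Y₁ ∧ ∃ m ∈ M, t * m ∈ D'}, (hY₁.subset fun t ht => ht.1).image _, ?_⟩
    rintro _ ⟨m, hm, rfl⟩
    obtain ⟨y, hy, hym⟩ := hY₂ (m * r) ⟨m, (mem_inf.1 hm).1, rfl⟩
    have h4 : m * r ∈ D' := mul_mem (mem_inf.1 hm).2 hr
    have h5 : ∃ m ∈ M, y * m ∈ D' := by
      refine ⟨_, hym, ?_⟩
      rw [mul_inv_cancel_left]
      exact h4
    refine ⟨ee y, ⟨y, ⟨hy, h5⟩, rfl⟩, mem_inf.2 ⟨?_, mul_mem (inv_mem (hee1 y h5)) h4⟩⟩
    have e : (ee y)⁻¹ * (m * r) = (y⁻¹ * ee y)⁻¹ * (y⁻¹ * (m * r)) := by group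
    rw [e]
    exact mul_mem (inv_mem (hee2 y h5)) hym
  obtain ⟨Z, hZf, hZD, hZ⟩ := cover_of_relIndex h3
  refine relIndex_of_cover (Set.image2 (fun k z => k * z) K Z) (Set.Finite.image2 _ hKf hZf) ?_
  intro x hx
  obtain ⟨d, hd, k, hk, m, hm, rfl⟩ := h1' x hx
  have h4 : k⁻¹ * d * k ∈ D' := by
    have h5 := hcj k⁻¹ (inv_mem (hKD hk)) d hd
    rwa [inv_inv] at h5
  obtain ⟨z, hz, hzd⟩ := hZ _ h4
  refine ⟨k * z, ⟨k, hk, z, hz, rfl⟩, ?_⟩
  have e : (k * z)⁻¹ * (d * k * m) = (z⁻¹ * (k⁻¹ * d * k)) * m := by group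
  rw [e]
  exact mul_mem (mem_inf.1 hzd).1 hm

end VS

theorem blk_VS : Stmt_VS.{u} := by
  intro G _ hlf n
  induction n with
  | zero =>
    intro D M F hD0 hMD _ _ _
    have h1 : D = ⊥ := hD0
    rw [h1, relIndex_bot_right]
    exact one_ne_zero
  | succ n ih =>
    intro D M F hD0 hMD hF hD hBd
    refine VS.step hlf D M F hMD hF hD hBd fun M' F' h1 h2 h3 h4 => ?_
    exact ih ⁅D, D⁆ M' F' (by rw [VS.dw_der]; exact hD0) h1 h2 h3 h4

end Pool.Agent.Work.MP_3fbbd3_fit
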