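import Pool.Agent.Work.MP_3fbbd3_fit.Interface

/-! Block WB: the functions which are generically in `C` are bounded. -/

namespace Pool.Agent.Work.MP_3fbbd3_fit

open Subgroup Filter
open Pool.Agent.Work.MP_3fbbd3_h11
open scoped commutatorElement

universe u

namespace WB

variable {G : Type u} [Group G]

theorem bd_iUnion {C : Subgroup G} {ι : Type*} {S : Set ι} (hS : S.Finite) (B : ι → Set G)
    (h : ∀ i ∈ S, Bd C (B i)) : Bd C {x | ∃ i ∈ S, x ∈ B i} := by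
  choose! Y hY hY' using h
  refine ⟨⋃ i ∈ S, Y i, hS.biUnion fun i hi => hY i hi, ?_⟩
  rintro b ⟨i, hi, hb⟩
  obtain ⟨y, hy, hyb⟩ := hY' i hi b hb
  exact ⟨y, Set.mem_biUnion hi hy, hyb⟩

end WB

open WB in
theorem blk_WB (hSYN : Stmt_SYN.{u}) (hTR : Stmt_TR.{u}) (hEB : Stmt_EB.{u})
    (hBDM : Stmt_BDM.{u}) : Stmt_WB.{u} := by
  intro G _ C hC T _ f hf hfC
  obtain ⟨S, hS, hSA⟩ := hSYN T {k | f.1 k ∈ C} hfC
  choose e he hek using fun t : T => hTR T G f hf t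
  -- the bounded sets
  have hB : ∀ t ∈ S, Bd C {x : G | ∃ k : T, x = (e t).1⁻¹ k * (f.1 t)⁻¹} := by
    intro t _
    obtain ⟨N₁, hN₁, hN₁e, hbd⟩ := hEB G C hC T (e t) (he t)
    obtain ⟨N₂, hN₂, hN₂f⟩ := NN_cover (f.1 t)
    obtain ⟨N, hN, l₁, l₂⟩ := NN_directed N₁ hN₁ N₂ hN₂
    have hr : Set.range (e t).1 ⊆ (N : Set G) := by
      rintro _ ⟨k, rfl⟩
      exact l₁ (hN₁e k)
    have h1 := (hBDM G C hC N hN _ _ hr hr hbd hbd).2.1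
    have h2 : Bd C {(f.1 t)⁻¹} := ⟨{(f.1 t)⁻¹}, Set.finite_singleton _, by
      rintro b rfl
      exact ⟨_, rfl, by simp⟩⟩
    have h3 := (hBDM G C hC N hN {x : G | ∃ b ∈ Set.range (e t).1, x = b⁻¹} {(f.1 t)⁻¹} (by
      rintro x ⟨b, hb, rfl⟩
      exact inv_mem (hr hb)) (by
      rintro x rfl
      exact inv_mem (l₂ hN₂f)) h1 h2).1
    obtain ⟨Y, hY, hY'⟩ := h3
    refine ⟨Y, hY, ?_⟩
    rintro x ⟨k, rfl⟩
    exact hY' _ ⟨_, ⟨_, ⟨k, rfl⟩, rfl⟩, _, rfl, rfl⟩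
  obtain ⟨Y, hY, hY'⟩ := bd_iUnion hS _ hB
  refine ⟨Y, hY, ?_⟩
  rintro _ ⟨k, rfl⟩
  obtain ⟨t, ht, htk⟩ := hSA k
  obtain ⟨y, hy, hyC⟩ := hY' ((e t).1⁻¹ k * (f.1 t)⁻¹) ⟨t, ht, k, rfl⟩
  refine ⟨y, hy, ?_⟩
  have h1 : f.1 (t * k) ∈ C := htk
  have h2 := mul_mem hyC h1
  rw [hek t k] at h2
  have h3 : y⁻¹ * ((e t).1⁻¹ k * (f.1 t)⁻¹) * (f.1 t * (e t).1 k * f.1 k) = y⁻¹ * f.1 k := by
    have : (e t).1⁻¹ k = ((e t).1 k)⁻¹ := rfl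
    rw [this]
    group
  rwa [h3] at h2

end Pool.Agent.Work.MP_3fbbd3_fit
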