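import Pool.Agent.Work.MP_3fbbd3_fit.Interface
import Pool.Agent.Work.MP_3fbbd3_h11.POLY

/-! Block EE: the main induction. -/

namespace Pool.Agent.Work.MP_3fbbd3_fit

open Subgroup Filter
open Pool.Agent.Work.MP_3fbbd3_h11
open scoped commutatorElement

universe u

namespace EE

variable {G : Type u} [Group G] {P : Type u} [Group P]

/-- `y⁻¹ (u y u⁻¹)` -/
def KK (cn : G →* P) (u : G) (y : P) : P := y⁻¹ * (cn u * y * (cn u)⁻¹)

variable (cn : G →* P)

theorem KK_mul (u : G) (y z : P) : KK cn u (y * z) = (z⁻¹ * KK cn u y * z) * KK cn u z := by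
  unfold KK
  group

theorem KK_one (u : G) : KK cn u 1 = 1 := by
  unfold KK
  group

theorem KK_mul' (u v : G) (y : P) :
    KK cn (u * v) y = KK cn v y * KK cn u (cn v * y * (cn v)⁻¹) := by
  unfold KK
  rw [map_mul]
  group

theorem KK_one' (y : P) : KK cn 1 y = 1 := by
  unfold KK
  rw [map_one]
  group

theorem KK_comm (u : G) (y : P) : ⁅y, cn u⁆ = KK cn u y⁻¹ := by
  unfold KK
  rw [commutatorElement_def]
  group

theorem KK_conj (c u : G) (y : P) :
    cn c * KK cn u y * (cn c)⁻¹ = KK cn (c * u * c⁻¹) (cn c * y * (cn c)⁻¹) := by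
  unfold KK
  simp only [map_mul, map_inv]
  group

variable (o : P →* G) (Ck : P → Prop)

theorem o_KK (ho : ∀ g, o (cn g) = g) (u : G) {y : P} (hy : o y = 1) : o (KK cn u y) = 1 := by
  unfold KK
  rw [map_mul, map_mul, map_mul, map_inv, map_inv, hy, ho]
  group

/-- the predicate -/
def RP : List G → P → Prop
  | [], y => ∀ B : P, o B = 1 → Ck (B⁻¹ * y * B)
  | u :: l, y => ∀ B : P, o B = 1 → RP l (KK cn u (B⁻¹ * y * B))

theorem o_conj {B y : P} (hB : o B = 1) (hy : o y = 1) : o (B⁻¹ * y * B) = 1 := by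
  rw [map_mul, map_mul, map_inv, hB, hy]
  group

theorem RP_conj (l : List G) {y B : P} (hB : o B = 1) (h : RP cn o Ck l y) :
    RP cn o Ck l (B⁻¹ * y * B) := by
  cases l with
  | nil =>
    intro B' hB'
    have e : B'⁻¹ * (B⁻¹ * y * B) * B' = (B * B')⁻¹ * y * (B * B') := by group
    rw [e]
    exact h _ (by rw [map_mul, hB, hB', mul_one])
  | cons u l =>
    intro B' hB'
    have e : B'⁻¹ * (B⁻¹ * y * B) * B' = (B * B')⁻¹ * y * (B * B') := by group
    rw [e]
    exact h _ (by rw [map_mul, hB, hB', mul_one])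

variable {Ck}

theorem RP_mul (ho : ∀ g, o (cn g) = g) (hm : ∀ y z, Ck y → Ck z → Ck (y * z)) :
    ∀ (l : List G) {y z : P}, o y = 1 → o z = 1 →
    RP cn o Ck l y → RP cn o Ck l z → RP cn o Ck l (y * z)
  | [], y, z, _, _, h₁, h₂ => by
    intro B hB
    have e : B⁻¹ * (y * z) * B = (B⁻¹ * y * B) * (B⁻¹ * z * B) := by group
    rw [e]
    exact hm _ _ (h₁ B hB) (h₂ B hB)
  | u :: l, y, z, hy, hz, h₁, h₂ => by
    intro B hB
    have e : B⁻¹ * (y * z) * B = (B⁻¹ * y * B) * (B⁻¹ * z * B) := by group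
    rw [e, KK_mul]
    have h3 := o_conj o hB hy
    have h4 := o_conj o hB hz
    refine RP_mul ho hm l (o_conj o h4 (o_KK cn o ho u h3)) (o_KK cn o ho u h4)
      (RP_conj cn o Ck l h4 (h₁ B hB)) (h₂ B hB)

theorem RP_one (h1 : Ck 1) : ∀ l : List G, RP cn o Ck l 1
  | [] => by
    intro B _
    have e : B⁻¹ * 1 * B = 1 := by group
    rw [e]
    exact h1
  | u :: l => by
    intro B _
    have e : B⁻¹ * 1 * B = 1 := by group
    rw [e, KK_one]
    exact RP_one h1 l

theorem RP_inv (ho : ∀ g, o (cn g) = g) (hi : ∀ y, Ck y → Ck y⁻¹) :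
    ∀ (l : List G) {y : P}, o y = 1 → RP cn o Ck l y → RP cn o Ck l y⁻¹
  | [], y, _, h => by
    intro B hB
    have e : B⁻¹ * y⁻¹ * B = (B⁻¹ * y * B)⁻¹ := by group
    rw [e]
    exact hi _ (h B hB)
  | u :: l, y, hy, h => by
    intro B hB
    set z : P := B⁻¹ * y * B with hz
    have e : B⁻¹ * y⁻¹ * B = z⁻¹ := by rw [hz]; group
    have hz1 : o z = 1 := o_conj o hB hy
    have hz2 : o z⁻¹ = 1 := by rw [map_inv, hz1, inv_one]
    have e2 : KK cn u z⁻¹ = (z⁻¹⁻¹ * KK cn u z * z⁻¹)⁻¹ := by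
      have h3 := KK_mul cn u z z⁻¹
      rw [mul_inv_cancel, KK_one] at h3
      exact (inv_eq_of_mul_eq_one_right h3.symm).symm
    rw [e, e2]
    exact RP_inv ho hi l (o_conj o hz2 (o_KK cn o ho u hz1))
      (RP_conj cn o Ck l hz2 (h B hB))

/-- the descending normal subgroups -/
def QQ : ℕ → Subgroup P
  | 0 => o.ker
  | i + 1 => normalClosure {e : P | ∃ y ∈ QQ i, ∃ u : G, e = ⁅y, cn u⁆}

theorem QQ_normal : ∀ i, (QQ cn o i).Normal
  | 0 => (inferInstance : o.ker.Normal)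
  | _ + 1 => normalClosure_normal

theorem QQ_ker : ∀ i, QQ cn o i ≤ o.ker
  | 0 => le_rfl
  | i + 1 => by
    refine normalClosure_le_normal ?_
    rintro _ ⟨y, hy, u, rfl⟩
    have h1 : o y = 1 := QQ_ker i hy
    change o ⁅y, cn u⁆ = 1
    rw [map_commutatorElement, h1]
    simp [commutatorElement_def]

end EE

end Pool.Agent.Work.MP_3fbbd3_fit
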