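import Pool.Agent.Work.MP_3fbbd3_h11.Main

/-!
Perfect locally finite `p`-groups whose small normal subgroups are residually nilpotent have a
proper subgroup which is not solvable (MP_3fbbd3_al).  Definitions and the statements of the
blocks; the proofs are in BLUEPRINT.md.
-/

namespace Pool.Agent.Work.MP_3fbbd3_fit

open Subgroup Filter
open Pool.Agent.Work.MP_3fbbd3_h11
open scoped commutatorElement

universe u

/-- the filter of the large sets: those which are in all idempotent ultrafilters -/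
def Lg (T : Type u) [Mul T] : Filter T :=
  ⨆ U : {U : Ultrafilter T // Idem U}, ((U : Ultrafilter T) : Filter T)

/-- the normal closures of finite sets are residually nilpotent -/
def ResG (G : Type u) [Group G] : Prop :=
  ∀ F : Set G, F.Finite → ∀ x : G, (∀ i : ℕ, x ∈ (normalClosure F).lowerCentralSeries i) → x = 1

section PP

variable (T : Type u) [Group T] (G : Type u) [Group G]

/-- the group of functions generated by the constants and the homomorphisms into small normal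
subgroups -/
def PP : Subgroup (T → G) :=
  Subgroup.closure ({f : T → G | ∃ φ : T →* G, (∃ N ∈ NN G, ∀ x, φ x ∈ N) ∧ ∀ x, f x = φ x} ∪
    {f : T → G | ∃ c : G, ∀ x, f x = c})

/-- the constants -/
def con : G →* PP T G where
  toFun c := ⟨fun _ => c, Subgroup.subset_closure (Or.inr ⟨c, fun _ => rfl⟩)⟩
  map_one' := rfl
  map_mul' _ _ := rfl

variable {T} in
/-- evaluation -/
def evv (k : T) : PP T G →* G where
  toFun f := f.1 k
  map_one' := rfl
  map_mul' _ _ := rfl

/-- the functions with value `1` at `1` -/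
def P1 : Subgroup (PP T G) := (evv G (1 : T)).ker

/-- the normal subgroup generated by the commutators of functions in `P1` with constants -/
def EP : Subgroup (PP T G) :=
  normalClosure {e : PP T G | ∃ y ∈ P1 T G, ∃ u : G, e = ⁅y, con T G u⁆}

end PP

/-- `B` is covered by finitely many left cosets of `C` -/
def Bd {G : Type u} [Group G] (C : Subgroup G) (B : Set G) : Prop :=
  ∃ Y : Set G, Y.Finite ∧ ∀ b ∈ B, ∃ y ∈ Y, y⁻¹ * b ∈ C

/-- the subgroup generated by the `j`-th derived groups of the finite subgroups above `X` which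
avoid `a` -/
def CC {G : Type u} [Group G] (a : G) (X : Subgroup G) (j : ℕ) : Subgroup G :=
  sSup {D : Subgroup G | ∃ Z : Subgroup G, (Z : Set G).Finite ∧ X ≤ Z ∧ a ∉ Z ∧ D = (dw j).ev Z}

/-- generic elements avoid `a` -/
def GPg {G : Type u} [Group G] (a : G) : Prop :=
  ∀ (T : Type u) [Group T] (Z : Subgroup G), (Z : Set G).Finite → a ∉ Z →
    ∀ s : Set (PP T G), s.Finite → (∀ y ∈ s, y ∈ P1 T G) →
      ∀ᶠ k in Lg T, a ∉ Z ⊔ Subgroup.closure ((fun y : PP T G => y.1 k) '' s)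

/-- the functions in `EP` are generically in `C` -/
def EC {G : Type u} [Group G] (C : Subgroup G) : Prop :=
  ∀ (T : Type u) [Group T], ∀ e ∈ EP T G, ∀ᶠ k in Lg T, e.1 k ∈ C

/-- the functions with values in a small normal subgroup and in finitely many cosets of `C` -/
def BB {G : Type u} [Group G] (C : Subgroup G) {T : Type u} (f : T → G) : Prop :=
  ∃ N ∈ NN G, (∀ k, f k ∈ N) ∧ Bd C (Set.range f)

/-! ### Blocks -/

/-- SYN: a large set is (left) syndetic -/
def Stmt_SYN : Prop := ∀ (T : Type u) [Group T] (A : Set T), A ∈ Lg T →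
  ∃ S : Set T, S.Finite ∧ ∀ v : T, ∃ t ∈ S, t * v ∈ A

/-- GP: generic elements of residually nilpotent normal subgroups avoid `a` -/
def Stmt_GP : Prop := ∀ (p : ℕ) (G : Type u) [Group G], p ≠ 0 → IsPGroup p G →
  (∀ s : Set G, s.Finite → ((Subgroup.closure s : Subgroup G) : Set G).Finite) →
  ResG G → ∀ a : G, GPg a

/-- EE: the main induction -/
def Stmt_EE : Prop := ∀ (G : Type u) [Group G], commutator G = ⊤ →
  (∀ s : Set G, s.Finite → ((Subgroup.closure s : Subgroup G) : Set G).Finite) →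
  ∀ (P : Type u) [Group P] (cn : G →* P) (o : P →* G) (T : Type u) (ev : T → P →* G)
    (L : Filter T), (∀ g, o (cn g) = g) → (∀ k g, ev k (cn g) = g) →
  ∀ a : G,
    (∀ Z : Subgroup G, (Z : Set G).Finite → a ∉ Z → ∀ s : Set P, s.Finite → (∀ y ∈ s, o y = 1) →
      ∀ᶠ k in L, a ∉ Z ⊔ Subgroup.closure ((fun y : P => ev k y) '' s)) →
  ∀ (X : Subgroup G), (X : Set G).Finite → a ∉ X → ∀ j : ℕ,
    (∀ i, i < j → ∀ Z : Subgroup G, (Z : Set G).Finite → X ≤ Z → a ∉ Z → CC a Z i = ⊤) →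
  ∀ e ∈ normalClosure {e : P | ∃ y : P, o y = 1 ∧ ∃ u : G, e = ⁅y, cn u⁆},
    ∀ᶠ k in L, ev k e ∈ CC a X j

/-- TR: translations -/
def Stmt_TR : Prop := ∀ (T : Type u) [Group T] (G : Type u) [Group G] (f : PP T G),
  f ∈ P1 T G → ∀ t : T, ∃ e ∈ EP T G, ∀ k : T, f.1 (t * k) = f.1 t * e.1 k * f.1 k

/-- COM (from SYN): commensuration -/
def Stmt_COM : Prop := ∀ (G : Type u) [Group G] (C : Subgroup G), EC C →
  ∀ N ∈ NN G, ∀ r : G, Bd C {x : G | ∃ m : G, m ∈ C ∧ m ∈ N ∧ x = m * r}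

/-- RR (from SYN, COM): conjugates of constants -/
def Stmt_RR : Prop := ∀ (G : Type u) [Group G] (C : Subgroup G), EC C →
  ∀ N ∈ NN G, ∀ x : G, Bd C {y : G | ∃ v ∈ N, y = v * x * v⁻¹}

/-- RRR (from SYN, COM, RR, BDM): conjugates of commutators -/
def Stmt_RRR : Prop := ∀ (G : Type u) [Group G] (C : Subgroup G), EC C →
  ∀ N ∈ NN G, ∀ u : G,
    Bd C {y : G | ∃ v₁ ∈ N, ∃ v₂ ∈ N, y = v₂ * (u * v₁⁻¹ * u⁻¹ * v₁) * v₂⁻¹}

/-- BDM (from COM): products, inverses, conjugates of bounded sets -/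
def Stmt_BDM : Prop := ∀ (G : Type u) [Group G] (C : Subgroup G), EC C →
  ∀ N ∈ NN G, ∀ B₁ B₂ : Set G, B₁ ⊆ N → B₂ ⊆ N → Bd C B₁ → Bd C B₂ →
    Bd C {x : G | ∃ b₁ ∈ B₁, ∃ b₂ ∈ B₂, x = b₁ * b₂} ∧ Bd C {x : G | ∃ b ∈ B₁, x = b⁻¹} ∧
    ∀ g : G, Bd C {x : G | ∃ b ∈ B₁, x = g * b * g⁻¹}

/-- EB (from RRR, BDM): the functions in `EP` are bounded -/
def Stmt_EB : Prop := ∀ (G : Type u) [Group G] (C : Subgroup G), EC C →
  ∀ (T : Type u) [Group T], ∀ e ∈ EP T G, BB C e.1

/-- WB (from SYN, TR, EB, BDM): the functions which are generically in `C` are bounded -/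
def Stmt_WB : Prop := ∀ (G : Type u) [Group G] (C : Subgroup G), EC C →
  ∀ (T : Type u) [Group T] (f : PP T G), f ∈ P1 T G → (∀ᶠ k in Lg T, f.1 k ∈ C) →
    Bd C (Set.range f.1)

/-- WORD: the values of an outer commutator word -/
def Stmt_WORD : Prop := ∀ (G : Type u) [Group G] (N : Subgroup G), N ∈ NN G → ∀ w : W,
  ∃ (T : Type u) (_ : Group T) (s : Set (PP T G)) (f : PP T G), s.Finite ∧
    (∀ y ∈ s, y ∈ P1 T G) ∧ f ∈ P1 T G ∧
    (∀ k, f.1 k ∈ w.ev (Subgroup.closure ((fun y : PP T G => y.1 k) '' s))) ∧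
    w.ev N = Subgroup.closure (Set.range f.1)

/-- VS: a commensurated subgroup over which a solvable locally finite group is finitely generated
has finite index -/
def Stmt_VS : Prop := ∀ (G : Type u) [Group G],
  (∀ s : Set G, s.Finite → ((Subgroup.closure s : Subgroup G) : Set G).Finite) →
  ∀ (n : ℕ) (D M : Subgroup G) (F : Set G), (dw n).ev D = ⊥ → M ≤ D → F.Finite →
    D = Subgroup.closure ((M : Set G) ∪ F) →
    (∀ r ∈ D, Bd M {x : G | ∃ m ∈ M, x = m * r}) → M.relIndex D ≠ 0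

/-- QUO: reduction to the quotient -/
def Stmt_QUO : Prop := ∀ (p : ℕ) (G : Type u) [Group G], Ctx p G →
  (∀ H : Subgroup G, H ≠ ⊤ → Group.IsSolvable H) →
  ∀ K : Subgroup G, K.Normal → K ≠ ⊤ →
  (∀ F : Set G, F.Finite → ∀ x : G,
    (∀ i : ℕ, x ∈ (normalClosure F).lowerCentralSeries i ⊔ K) → x ∈ K) →
  ∃ (G' : Type u) (_ : Group G'), Ctx p G' ∧ ResG G' ∧
    ∀ H : Subgroup G', H ≠ ⊤ → Group.IsSolvable H

/-- LEN: bounded nilpotent length gives a nilpotent situation in a quotient -/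
def Stmt_LEN : Prop := ∀ (p : ℕ) (G : Type u) [Group G], Ctx p G → ∀ k : ℕ,
  (∀ F : Set G, F.Finite → ∃ m : ℕ,
    (fun X : Subgroup G => X.lowerCentralSeries m)^[k] (normalClosure F) = ⊥) →
  ∃ K : Subgroup G, K.Normal ∧ K ≠ ⊤ ∧
    ∀ F : Set G, F.Finite → ∃ i : ℕ, (normalClosure F).lowerCentralSeries i ≤ K

end Pool.Agent.Work.MP_3fbbd3_fit
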