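import Pool.Agent.Work.MP_3fbbd3_fit.Interface
import Pool.Agent.Work.MP_3fbbd3_h11.KMA
import Pool.Agent.Work.MP_3fbbd3_h11.RED
import Pool.Agent.Work.MP_3fbbd3_h11.KMC

/-! Assembly of the proof of the main theorem. -/

namespace Pool.Agent.Work.MP_3fbbd3_fit

open Subgroup Filter
open Pool.Agent.Work.MP_3fbbd3_h11
open scoped commutatorElement

universe u

variable {G : Type u} [Group G]

theorem EC_CC (hEE : Stmt_EE.{u}) (hperf : commutator G = ⊤)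
    (hlf : ∀ s : Set G, s.Finite → ((Subgroup.closure s : Subgroup G) : Set G).Finite)
    {a : G} (hGP : GPg a) {X : Subgroup G} (hX : (X : Set G).Finite) (haX : a ∉ X) (j : ℕ)
    (hL : ∀ i, i < j → ∀ Z : Subgroup G, (Z : Set G).Finite → X ≤ Z → a ∉ Z → CC a Z i = ⊤) :
    EC (CC a X j) := by
  intro T _ e he
  refine hEE G hperf hlf (PP T G) (con T G) (evv G (1 : T)) T (evv G) (Lg T) (fun _ => rfl)
    (fun _ _ => rfl) a ?_ X hX haX j hL e ?_
  · intro Z hZ haZ s hs hs1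
    exact hGP T Z hZ haZ s hs (fun y hy => MonoidHom.mem_ker.2 (hs1 y hy))
  · exact he

/-- the elements of a finite set are in the word values of a small normal subgroup -/
theorem exists_ev (hperf : commutator G = ⊤) (w : W) (F : Set G) (hF : F.Finite) :
    ∃ N ∈ NN G, F ⊆ (w.ev N : Set G) := by
  have hd : DirectedOn (· ≤ ·) ((fun N : Subgroup G => w.ev N) '' (NN G)) := by
    rintro _ ⟨N₁, hN₁, rfl⟩ _ ⟨N₂, hN₂, rfl⟩
    obtain ⟨N, hN, l₁, l₂⟩ := NN_directed N₁ hN₁ N₂ hN₂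
    exact ⟨_, ⟨N, hN, rfl⟩, W.ev_mono w l₁, W.ev_mono w l₂⟩
  have h0 : ((fun N : Subgroup G => w.ev N) '' (NN G)).Nonempty := by
    obtain ⟨N, hN, -⟩ := NN_cover (1 : G)
    exact ⟨_, ⟨N, hN, rfl⟩⟩
  obtain ⟨S, ⟨N, hN, rfl⟩, hS⟩ := RED.fin_sub _ hd h0 F hF (by
    intro x _
    have hx : x ∈ w.ev (⊤ : Subgroup G) := by
      rw [KMA.ev_top hperf]
      exact mem_top x
    obtain ⟨N, hN, hxN⟩ := KMA.ev_union hperf (NN G) NN_directed NN_cover w x hx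
    have := NN_normal N hN
    exact ⟨_, ⟨N, hN, rfl⟩, W.ev_mono w (commutator_le_left N ⊤) hxN⟩)
  exact ⟨N, hN, hS⟩

theorem Bd.mono {C : Subgroup G} {A B : Set G} (h : A ⊆ B) (hB : Bd C B) : Bd C A := by
  obtain ⟨Y, hY, hY'⟩ := hB
  exact ⟨Y, hY, fun b hb => hY' b (h hb)⟩

/-- the representatives of a bounded set can be chosen in the set -/
theorem Bd.reps {C : Subgroup G} {B : Set G} (hB : Bd C B) :
    ∃ Y : Set G, Y.Finite ∧ Y ⊆ B ∧ ∀ b ∈ B, ∃ y ∈ Y, y⁻¹ * b ∈ C := by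
  classical
  obtain ⟨Y, hY, hY'⟩ := hB
  let g : G → G := fun y => if h : ∃ b ∈ B, y⁻¹ * b ∈ C then h.choose else y
  refine ⟨(g '' Y) ∩ B, (hY.image _).inter_of_left _, Set.inter_subset_right, ?_⟩
  intro b hb
  obtain ⟨y, hy, hyb⟩ := hY' b hb
  have h : ∃ b ∈ B, y⁻¹ * b ∈ C := ⟨b, hb, hyb⟩
  have hg : g y = h.choose := dif_pos h
  have h1 := h.choose_spec
  rw [← hg] at h1
  refine ⟨g y, ⟨⟨y, hy, rfl⟩, h1.1⟩, ?_⟩
  have e : (g y)⁻¹ * b = (y⁻¹ * g y)⁻¹ * (y⁻¹ * b) := by group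
  rw [e]
  exact mul_mem (inv_mem h1.2) hyb

/-- the claim `C = G` for one subgroup with `EC` -/
theorem top_of_EC (hCOM : Stmt_COM.{u}) (hWB : Stmt_WB.{u}) (hWORD : Stmt_WORD.{u})
    (hVS : Stmt_VS.{u}) (hFG : Stmt_FG.{u}) (hKMA : Stmt_KMA.{u})
    (p : ℕ) (hG : Ctx p G) (hsol : ∀ H : Subgroup G, H ≠ ⊤ → Group.IsSolvable H)
    {a : G} (hGP : GPg a) {X : Subgroup G} (hX : (X : Set G).Finite) (haX : a ∉ X) (j : ℕ)
    (hEC : EC (CC a X j)) : CC a X j = ⊤ := by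
  by_contra hne
  obtain ⟨m, hm⟩ := dw_law (hsol _ hne)
  obtain ⟨N₀, hN₀, h0⟩ := hKMA p G hG (NN G) NN_normal NN_directed NN_cover (dw m) _ (hm m le_rfl)
  obtain ⟨-, F, hF, hN₀F⟩ := hN₀
  obtain ⟨N, hN, hFN⟩ := exists_ev hG.perf (dw j) F hF
  have hNn := NN_normal N hN
  have hDn : ((dw j).ev N).Normal := by
    rw [← KMC.evl_const]
    exact KMC.evl_normal _ _ fun _ => hNn
  have hle : N₀ ≤ (dw j).ev N := hN₀F.trans (normalClosure_le_normal hFN)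
  have hDN : (dw j).ev N ≤ N := by
    have h1 : ∀ n, (dw n).ev N ≤ N := by
      intro n
      induction n with
      | zero => exact le_rfl
      | succ n ih =>
        refine (commutator_mono ih ih).trans ?_
        exact commutator_le_left N N
    exact h1 j
  obtain ⟨T, _, s, f, hs, hs1, hf1, hfs, hfD⟩ := hWORD G N hN (dw j)
  have hgen : ∀ᶠ k in Lg T, f.1 k ∈ CC a X j := by
    filter_upwards [hGP T X hX haX s hs hs1] with k hk
    have hZ : ((X ⊔ Subgroup.closure ((fun y : PP T G => y.1 k) '' s) : Subgroup G) :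
        Set G).Finite := by
      have h1 : X ⊔ Subgroup.closure ((fun y : PP T G => y.1 k) '' s) ≤
          Subgroup.closure ((X : Set G) ∪ ((fun y : PP T G => y.1 k) '' s)) := by
        rw [Subgroup.closure_union, Subgroup.closure_eq]
      exact (hG.lf _ (hX.union (hs.image _))).subset h1
    have h2 : (dw j).ev (X ⊔ Subgroup.closure ((fun y : PP T G => y.1 k) '' s)) ≤ CC a X j :=
      le_sSup ⟨_, hZ, le_sup_left, hk, rfl⟩
    exact h2 (W.ev_mono _ le_sup_right (hfs k))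
  have hbd := hWB G _ hEC T f hf1 hgen
  obtain ⟨Y, hY, hYf, hYC⟩ := hbd.reps
  have hfin : (CC a X j ⊓ (dw j).ev N).relIndex ((dw j).ev N) ≠ 0 := by
    have hrange : Set.range f.1 ⊆ ((dw j).ev N : Set G) := by
      rw [hfD]
      exact Subgroup.subset_closure
    obtain ⟨F', hF', hNF'⟩ := hN.2
    obtain ⟨n, hn⟩ := dw_law (hsol _ (hFG p G hG F' hF'))
    refine hVS G hG.lf n ((dw j).ev N) (CC a X j ⊓ (dw j).ev N) Y ?_ inf_le_right hY ?_ ?_
    · rw [eq_bot_iff, ← hn n le_rfl]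
      exact W.ev_mono _ (hDN.trans hNF')
    · apply le_antisymm
      · conv_lhs => rw [hfD]
        rw [Subgroup.closure_le]
        rintro _ ⟨k, rfl⟩
        obtain ⟨y, hy, hyC⟩ := hYC (f.1 k) ⟨k, rfl⟩
        have e : f.1 k = y * (y⁻¹ * f.1 k) := by group
        rw [e]
        refine mul_mem (Subgroup.subset_closure (Or.inr hy))
          (Subgroup.subset_closure (Or.inl ⟨hyC, ?_⟩))
        exact Subgroup.mul_mem _ (Subgroup.inv_mem _ (hrange (hYf hy))) (hrange ⟨k, rfl⟩)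
      · rw [Subgroup.closure_le]
        rintro y (hy | hy)
        · exact hy.2
        · exact hrange (hYf hy)
    · intro r hr
      obtain ⟨Y', hY', hYr⟩ := (hCOM G _ hEC N hN r).reps
      have hb : Bd (CC a X j) {x : G | ∃ m ∈ CC a X j ⊓ (dw j).ev N, x = m * r} := by
        refine (hCOM G _ hEC N hN r).mono ?_
        rintro x ⟨m, hm, rfl⟩
        exact ⟨m, hm.1, hDN hm.2, rfl⟩
      obtain ⟨Y₂, hY₂, hYs, hYc⟩ := hb.reps
      refine ⟨Y₂, hY₂, fun b hb => ?_⟩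
      obtain ⟨y, hy, hyb⟩ := hYc b hb
      refine ⟨y, hy, hyb, ?_⟩
      obtain ⟨m, hm, rfl⟩ := hb
      obtain ⟨m', hm', rfl⟩ := hYs hy
      exact Subgroup.mul_mem _ (Subgroup.inv_mem _ (Subgroup.mul_mem _ hm'.2 hr))
        (Subgroup.mul_mem _ hm.2 hr)
  rw [inf_relIndex_right] at hfin
  refine hfin ?_
  exact relIndex_eq_zero_of_le_right hle h0

/-- the residually nilpotent case -/
theorem main_res (hGP : Stmt_GP.{u}) (hEE : Stmt_EE.{u})
    (hCOM : Stmt_COM.{u}) (hWB : Stmt_WB.{u}) (hWORD : Stmt_WORD.{u})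
    (hVS : Stmt_VS.{u}) (hFG : Stmt_FG.{u}) (hBRK : Stmt_BRK.{u}) (hKMA : Stmt_KMA.{u})
    (p : ℕ) (hG : Ctx p G) (hres : ResG G) : ∃ H : Subgroup G, H ≠ ⊤ ∧ ¬ Group.IsSolvable H := by
  by_contra hcon
  push Not at hcon
  have : Nontrivial G := hG.nontriv
  obtain ⟨a, ha⟩ := exists_ne (1 : G)
  have hgp : GPg a := hGP p G hG.prime.ne_zero hG.pgrp hG.lf hres a
  have hL : ∀ j : ℕ, ∀ X : Subgroup G, (X : Set G).Finite → a ∉ X → CC a X j = ⊤ := by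
    intro j
    induction j using Nat.strong_induction_on with
    | _ j ih =>
      intro X hX haX
      exact top_of_EC hCOM hWB hWORD hVS hFG hKMA p hG hcon hgp hX haX j
        (EC_CC hEE hG.perf hG.lf hgp hX haX j fun i hi Z hZ _ haZ => ih i hi Z hZ haZ)
  obtain ⟨E, hE, haE, n, hn⟩ := hBRK G hG.lf dw (fun H hH => dw_law (hcon H hH)) a ha
  have h1 : CC a E n = ⊥ := by
    rw [eq_bot_iff]
    refine sSup_le ?_
    rintro _ ⟨Z, hZ, hEZ, haZ, rfl⟩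
    rw [hn Z hZ hEZ haZ]
  rw [hL n E hE haE] at h1
  exact top_ne_bot h1

theorem main (hGP : Stmt_GP.{u}) (hEE : Stmt_EE.{u})
    (hCOM : Stmt_COM.{u}) (hWB : Stmt_WB.{u}) (hWORD : Stmt_WORD.{u})
    (hVS : Stmt_VS.{u}) (hQUO : Stmt_QUO.{u})
    (hFG : Stmt_FG.{u}) (hBRK : Stmt_BRK.{u}) (hKMA : Stmt_KMA.{u})
    (p : ℕ) (hG : Ctx p G) (K : Subgroup G) (hK : K.Normal) (hKt : K ≠ ⊤)
    (hres : ∀ F : Set G, F.Finite → ∀ x : G,
      (∀ i : ℕ, x ∈ (normalClosure F).lowerCentralSeries i ⊔ K) → x ∈ K) :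
    ∃ H : Subgroup G, H ≠ ⊤ ∧ ¬ Group.IsSolvable H := by
  by_contra hcon
  push Not at hcon
  obtain ⟨G', _, hG', hres', hsol'⟩ := hQUO p G hG hcon K hK hKt hres
  obtain ⟨H, hH, hHs⟩ := main_res hGP hEE hCOM hWB hWORD hVS hFG hBRK hKMA p hG' hres'
  exact hHs (hsol' H hH)

theorem main_len (hGP : Stmt_GP.{u}) (hEE : Stmt_EE.{u})
    (hCOM : Stmt_COM.{u}) (hWB : Stmt_WB.{u}) (hWORD : Stmt_WORD.{u})
    (hVS : Stmt_VS.{u}) (hQUO : Stmt_QUO.{u}) (hLEN : Stmt_LEN.{u})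
    (hFG : Stmt_FG.{u}) (hBRK : Stmt_BRK.{u}) (hKMA : Stmt_KMA.{u})
    (p : ℕ) (hG : Ctx p G) (k : ℕ)
    (hk : ∀ F : Set G, F.Finite → ∃ m : ℕ,
      (fun X : Subgroup G => X.lowerCentralSeries m)^[k] (normalClosure F) = ⊥) :
    ∃ H : Subgroup G, H ≠ ⊤ ∧ ¬ Group.IsSolvable H := by
  obtain ⟨K, hK, hKt, h⟩ := hLEN p G hG k hk
  refine main hGP hEE hCOM hWB hWORD hVS hQUO hFG hBRK hKMA p hG K hK hKt fun F hF x hx => ?_
  obtain ⟨i, hi⟩ := h F hF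
  have h1 := hx i
  rwa [sup_eq_right.2 hi] at h1

end Pool.Agent.Work.MP_3fbbd3_fit
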