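import Pool.Agent.Work.MP_3fbbd3_fit.Main

/-! Subgroups of bounded nilpotent length. -/

namespace Pool.Agent.Work.MP_3fbbd3_fit

open Subgroup Filter
open Pool.Agent.Work.MP_3fbbd3_h11
open scoped commutatorElement

universe u

variable {G : Type u} [Group G]

theorem dw_le_self (n : ℕ) (X : Subgroup G) : (dw n).ev X ≤ X := by
  induction n with
  | zero => exact le_rfl
  | succ n ih =>
    refine (commutator_mono ih ih).trans ?_
    rw [commutator_le]
    intro a ha b hb
    rw [commutatorElement_def]
    exact mul_mem (mul_mem (mul_mem ha hb) (inv_mem ha)) (inv_mem hb)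

theorem dw_le_lcs (n : ℕ) (X : Subgroup G) : (dw n).ev X ≤ X.lowerCentralSeries n := by
  induction n with
  | zero => exact le_rfl
  | succ n ih =>
    rw [Subgroup.lowerCentralSeries_succ]
    exact commutator_mono ih (dw_le_self n X)

theorem dw_add (n m : ℕ) (X : Subgroup G) : (dw (n + m)).ev X = (dw m).ev ((dw n).ev X) := by
  induction m with
  | zero => rfl
  | succ m ih =>
    change ⁅(dw (n + m)).ev X, (dw (n + m)).ev X⁆ = _
    rw [ih]
    rfl

theorem dw_iterate (m : ℕ) : ∀ (k : ℕ) (X : Subgroup G),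
    (dw (k * m)).ev X ≤ (fun X : Subgroup G => X.lowerCentralSeries m)^[k] X := by
  intro k
  induction k with
  | zero =>
    intro X
    rw [zero_mul]
    exact le_rfl
  | succ k ih =>
    intro X
    rw [Function.iterate_succ_apply, show (k + 1) * m = m + k * m by ring, dw_add]
    exact (W.ev_mono _ (dw_le_lcs m X)).trans (ih _)

theorem solvable_of_dw {H : Subgroup G} {n : ℕ} (h : (dw n).ev H = ⊥) : Group.IsSolvable H := by
  rw [dw_ev, Subgroup.map_eq_bot_iff_of_injective _ H.subtype_injective] at h
  exact ⟨⟨n, h⟩⟩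

theorem solvable_of_iterate {H : Subgroup G} {k m : ℕ}
    (h : (fun X : Subgroup G => X.lowerCentralSeries m)^[k] H = ⊥) : Group.IsSolvable H :=
  solvable_of_dw (n := k * m) (le_bot_iff.1 (h ▸ dw_iterate m k H))

end Pool.Agent.Work.MP_3fbbd3_fit
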