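import Pool.Agent.Work.MP_3fbbd3_fit.Interface
import Pool.Agent.Work.MP_3fbbd3_h11.KMC

/-! Block WORD: the values of an outer commutator word. -/

namespace Pool.Agent.Work.MP_3fbbd3_fit

open Subgroup Filter
open Pool.Agent.Work.MP_3fbbd3_h11
open scoped commutatorElement

universe u

namespace WORD

open KMC (Lf)

/-- the value of the word at elements -/
def wel {H : Type*} [Group H] : (w : W) → (Lf w → H) → H
  | .x, f => f ()
  | .c w₁ w₂, f => ⁅wel w₁ (fun i => f (Sum.inl i)), wel w₂ (fun i => f (Sum.inr i))⁆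

theorem wel_map {H K : Type*} [Group H] [Group K] (φ : H →* K) :
    ∀ (w : W) (f : Lf w → H), φ (wel w f) = wel w (fun i => φ (f i))
  | .x, f => rfl
  | .c w₁ w₂, f => by
    have h1 := wel_map φ w₁ (fun i => f (Sum.inl i))
    have h2 := wel_map φ w₂ (fun i => f (Sum.inr i))
    change φ ⁅wel w₁ (fun i => f (Sum.inl i)), wel w₂ (fun i => f (Sum.inr i))⁆ =
      ⁅wel w₁ (fun i => φ (f (Sum.inl i))), wel w₂ (fun i => φ (f (Sum.inr i)))⁆
    rw [map_commutatorElement, h1, h2]

theorem wel_one {H : Type*} [Group H] :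
    ∀ (w : W), wel w (fun _ : Lf w => (1 : H)) = 1
  | .x => rfl
  | .c w₁ w₂ => by
    have h1 := wel_one (H := H) w₁
    have h2 := wel_one (H := H) w₂
    change ⁅wel w₁ (fun _ : Lf w₁ => (1 : H)), wel w₂ (fun _ : Lf w₂ => (1 : H))⁆ = 1
    rw [h1, h2, commutatorElement_self]

variable {G : Type u} [Group G]

theorem wel_mem (X : Subgroup G) :
    ∀ (w : W) (f : Lf w → G), (∀ i, f i ∈ X) → wel w f ∈ w.ev X
  | .x, f, h => h ()
  | .c w₁ w₂, f, h => commutator_mem_commutator (wel_mem X w₁ _ fun i => h _)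
      (wel_mem X w₂ _ fun i => h _)

/-- the values of the word in a subgroup -/
def vals (w : W) (N : Subgroup G) : Set G := {x | ∃ f : Lf w → G, (∀ i, f i ∈ N) ∧ x = wel w f}

theorem vals_conj (w : W) (N : Subgroup G) (hN : N.Normal) (x : G) (hx : x ∈ vals w N) (g : G) :
    g * x * g⁻¹ ∈ vals w N := by
  obtain ⟨f, hf, rfl⟩ := hx
  refine ⟨fun i => g * f i * g⁻¹, fun i => hN.conj_mem _ (hf i) g, ?_⟩
  exact wel_map (MulAut.conj g).toMonoidHom w f

theorem comm_closure (A B : Set G) (hA : ∀ a ∈ A, ∀ g : G, g * a * g⁻¹ ∈ A)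
    (hB : ∀ a ∈ B, ∀ g : G, g * a * g⁻¹ ∈ B) :
    ⁅Subgroup.closure A, Subgroup.closure B⁆ ≤
      Subgroup.closure {x | ∃ a ∈ A, ∃ b ∈ B, x = ⁅a, b⁆} := by
  set H := Subgroup.closure {x | ∃ a ∈ A, ∃ b ∈ B, x = ⁅a, b⁆} with hH
  have hHn : H.Normal := by
    constructor
    intro n hn g
    induction hn using Subgroup.closure_induction with
    | mem x hx =>
      obtain ⟨a, ha, b, hb, rfl⟩ := hx
      refine Subgroup.subset_closure ⟨g * a * g⁻¹, hA a ha g, g * b * g⁻¹, hB b hb g, ?_⟩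
      simp only [commutatorElement_def]
      group
    | one =>
      have e : g * 1 * g⁻¹ = 1 := by group
      rw [e]
      exact one_mem _
    | mul x y _ _ hx hy =>
      have e : g * (x * y) * g⁻¹ = (g * x * g⁻¹) * (g * y * g⁻¹) := by group
      rw [e]
      exact mul_mem hx hy
    | inv x _ hx =>
      have e : g * x⁻¹ * g⁻¹ = (g * x * g⁻¹)⁻¹ := by group
      rw [e]
      exact inv_mem hx
  have h1 : ∀ b ∈ B, ∀ a ∈ Subgroup.closure A, ⁅a, b⁆ ∈ H := by
    intro b hb a ha
    induction ha using Subgroup.closure_induction with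
    | mem x hx => exact Subgroup.subset_closure ⟨x, hx, b, hb, rfl⟩
    | one =>
      rw [commutatorElement_one_left]
      exact one_mem _
    | mul x y _ _ hx hy =>
      have e : ⁅x * y, b⁆ = x * ⁅y, b⁆ * x⁻¹ * ⁅x, b⁆ := by
        simp only [commutatorElement_def]
        group
      rw [e]
      exact mul_mem (hHn.conj_mem _ hy x) hx
    | inv x _ hx =>
      have e : ⁅x⁻¹, b⁆ = x⁻¹ * ⁅x, b⁆⁻¹ * x⁻¹⁻¹ := by
        simp only [commutatorElement_def]
        group
      rw [e]
      exact hHn.conj_mem _ (inv_mem hx) _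
  rw [commutator_le]
  intro a ha b hb
  induction hb using Subgroup.closure_induction with
  | mem x hx => exact h1 x hx a ha
  | one =>
    rw [commutatorElement_one_right]
    exact one_mem _
  | mul x y _ _ hx hy =>
    have e : ⁅a, x * y⁆ = ⁅a, x⁆ * (x * ⁅a, y⁆ * x⁻¹) := by
      simp only [commutatorElement_def]
      group
    rw [e]
    exact mul_mem hx (hHn.conj_mem _ hy x)
  | inv x _ hx =>
    have e : ⁅a, x⁻¹⁆ = x⁻¹ * ⁅a, x⁆⁻¹ * x⁻¹⁻¹ := by
      simp only [commutatorElement_def]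
      group
    rw [e]
    exact hHn.conj_mem _ (inv_mem hx) _

theorem closure_vals (N : Subgroup G) (hN : N.Normal) :
    ∀ w : W, w.ev N = Subgroup.closure (vals w N)
  | .x => by
    apply le_antisymm
    · intro n hn
      exact Subgroup.subset_closure ⟨fun _ => n, fun _ => hn, rfl⟩
    · rw [Subgroup.closure_le]
      rintro _ ⟨f, hf, rfl⟩
      exact hf ()
  | .c w₁ w₂ => by
    apply le_antisymm
    · have h1 := closure_vals N hN w₁
      have h2 := closure_vals N hN w₂
      change ⁅w₁.ev N, w₂.ev N⁆ ≤ _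
      rw [h1, h2]
      refine (comm_closure _ _ (vals_conj w₁ N hN) (vals_conj w₂ N hN)).trans ?_
      rw [Subgroup.closure_le]
      rintro _ ⟨_, ⟨f, hf, rfl⟩, _, ⟨g, hg, rfl⟩, rfl⟩
      refine Subgroup.subset_closure ⟨Sum.elim f g, ?_, rfl⟩
      rintro (i | i)
      · exact hf i
      · exact hg i
    · rw [Subgroup.closure_le]
      rintro _ ⟨f, hf, rfl⟩
      exact wel_mem N _ f hf

/-- the coordinates -/
def coord (w : W) (N : Subgroup G) (hN : N ∈ NN G) (i : Lf w) : PP (Lf w → N) G :=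
  ⟨fun k => (k i : G), Subgroup.subset_closure
    (Or.inl ⟨N.subtype.comp (Pi.evalMonoidHom (fun _ : Lf w => N) i),
      ⟨N, hN, fun k => (k i).2⟩, fun _ => rfl⟩)⟩

end WORD

open WORD in
theorem blk_WORD : Stmt_WORD.{u} := by
  intro G _ N hN w
  have hNn : N.Normal := hN.1
  have hval : ∀ k : KMC.Lf w → N,
      (wel w (coord w N hN)).1 k = wel w (fun i => (k i : G)) := fun k =>
    wel_map (evv G k) w (coord w N hN)
  refine ⟨KMC.Lf w → N, inferInstance, Set.range (coord w N hN), wel w (coord w N hN),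
    Set.finite_range _, ?_, ?_, ?_, ?_⟩
  · rintro _ ⟨i, rfl⟩
    exact MonoidHom.mem_ker.2 rfl
  · refine MonoidHom.mem_ker.2 ?_
    change (wel w (coord w N hN)).1 1 = 1
    rw [hval]
    exact wel_one w
  · intro k
    rw [hval]
    refine wel_mem _ w _ fun i => Subgroup.subset_closure ⟨_, ⟨i, rfl⟩, rfl⟩
  · rw [closure_vals N hNn w]
    congr 1
    ext x
    constructor
    · rintro ⟨f, hf, rfl⟩
      exact ⟨fun i => ⟨f i, hf i⟩, hval _⟩
    · rintro ⟨k, rfl⟩
      exact ⟨fun i => k i, fun i => (k i).2, hval k⟩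

end Pool.Agent.Work.MP_3fbbd3_fit
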